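import Pool.Agent.W_92892c_h14.Unif
import Pool.Agent.W_92892c_v15.Final

/-!
Change of the sizes, and the theorem for elliptic curves.
-/

namespace MQV

open Finset Filter PowerSeries Topology MeasureTheory

variable {real : Bool} {L : ℤ → ℂ → ℂ} {r : ℤ → ℕ} {c : ℤ → ℂ} {A A' : ℤ → ℝ}
  {q : ℤ → Finset ℤ → ℝ}

/-- The two sizes differ by a bounded amount. -/
def Cmp (real : Bool) (A A' : ℤ → ℝ) (b : ℝ) : Prop :=
  0 ≤ b ∧ ∀ d ∈ Twists real, |Real.log (A d)| ≤ |Real.log (A' d)| + b ∧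
    |Real.log (A' d)| ≤ |Real.log (A d)| + b

lemma Cmp.symm {b : ℝ} (h : Cmp real A A' b) : Cmp real A' A b :=
  ⟨h.1, fun d hd => ⟨(h.2 d hd).2, (h.2 d hd).1⟩⟩

lemma Cmp.siz_le {b : ℝ} (h : Cmp real A A' b) {C : Finset ℤ} (hC : ↑C ⊆ Twists real) {n : ℕ}
    (hn : C.card ≤ n) : siz A C ≤ (1 + n * b) * siz A' C := by
  have h1 : ∑ e ∈ C, |Real.log (A e)| ≤ ∑ e ∈ C, (|Real.log (A' e)| + b) :=
    Finset.sum_le_sum fun e he => (h.2 e (hC he)).1
  rw [Finset.sum_add_distrib, Finset.sum_const, nsmul_eq_mul] at h1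
  have h2 : (C.card : ℝ) * b ≤ n * b :=
    mul_le_mul_of_nonneg_right (by exact_mod_cast hn) h.1
  have h3 := one_le_siz A' C
  have h4 : 0 ≤ (n : ℝ) * b := mul_nonneg (Nat.cast_nonneg n) h.1
  have h5 : siz A C ≤ siz A' C + n * b := by
    unfold siz
    linarith
  nlinarith

lemma rpow_cmp {s t m α : ℝ} (hs : 0 < s) (ht : 0 < t) (hm : 1 ≤ m) (h1 : s ≤ m * t)
    (h2 : t ≤ m * s) : s ^ α ≤ m ^ |α| * t ^ α := by
  have hm0 : 0 < m := by linarith
  rcases le_total 0 α with hα | hα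
  · rw [abs_of_nonneg hα, ← Real.mul_rpow hm0.le ht.le]
    exact Real.rpow_le_rpow hs.le h1 hα
  · rw [abs_of_nonpos hα]
    have h3 : (m * s) ^ α ≤ t ^ α := Real.rpow_le_rpow_of_nonpos ht h2 hα
    rw [Real.mul_rpow hm0.le hs.le] at h3
    have h4 : m ^ (-α) * (m ^ α * s ^ α) ≤ m ^ (-α) * t ^ α :=
      mul_le_mul_of_nonneg_left h3 (Real.rpow_nonneg hm0.le _)
    have h5 : m ^ (-α) * (m ^ α * s ^ α) = s ^ α := by
      rw [← mul_assoc, ← Real.rpow_add hm0, neg_add_cancel, Real.rpow_zero, one_mul]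
    rwa [h5] at h4

lemma Cmp.rpow {b : ℝ} (h : Cmp real A A' b) {C : Finset ℤ} (hC : ↑C ⊆ Twists real) {n : ℕ}
    (hn : C.card ≤ n) (α : ℝ) : siz A C ^ α ≤ (1 + n * b) ^ |α| * siz A' C ^ α := by
  have h3 := one_le_siz A' C
  have h3' := one_le_siz A C
  have h4 : 0 ≤ (n : ℝ) * b := mul_nonneg (Nat.cast_nonneg n) h.1
  exact rpow_cmp (by linarith) (by linarith) (by linarith) (h.siz_le hC hn) (h.symm.siz_le hC hn)

lemma Cmp.upper {b : ℝ} (h : Cmp real A A' b) {n : ℕ} {α : ℝ} (hU : Upper real q A n α) :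
    Upper real q A' n α := by
  obtain ⟨K, hK⟩ := hU
  refine ⟨|K| * (1 + n * b) ^ |α|, fun C hC hC' hn d hd => ?_⟩
  have h1 := hK C hC hC' hn d hd
  have h3' := one_le_siz A C
  have h2 : 0 ≤ siz A C ^ α := Real.rpow_nonneg (by linarith) _
  calc q d C ≤ K * siz A C ^ α := h1
    _ ≤ |K| * siz A C ^ α := mul_le_mul_of_nonneg_right (le_abs_self K) h2
    _ ≤ |K| * ((1 + n * b) ^ |α| * siz A' C ^ α) :=
        mul_le_mul_of_nonneg_left (h.rpow hC hn α) (abs_nonneg K)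
    _ = _ := by ring

lemma Cmp.lower {b : ℝ} (h : Cmp real A A' b) {n : ℕ} {α : ℝ} (hL : Lower real q A n α) :
    Lower real q A' n α := by
  obtain ⟨K, hK0, hK⟩ := hL
  have h4 : 0 ≤ (n : ℝ) * b := mul_nonneg (Nat.cast_nonneg n) h.1
  have h5 : 0 < (1 + n * b) ^ |α| := Real.rpow_pos_of_pos (by linarith) _
  refine ⟨K / (1 + n * b) ^ |α|, div_pos hK0 h5, fun C hC hC' hn d hd => ?_⟩
  have h1 := hK C hC hC' hn d hd
  have h2 := h.symm.rpow hC hn (-α)
  rw [abs_neg] at h2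
  refine le_trans ?_ h1
  rw [div_mul_eq_mul_div, div_le_iff₀ h5, mul_assoc]
  refine mul_le_mul_of_nonneg_left ?_ hK0.le
  rw [mul_comm (siz A C ^ (-α))]
  exact h2

lemma Cmp.sub {b : ℝ} (h : Cmp real A A' b) (hS : Sub real r q A) : Sub real r q A' := by
  intro d hd
  obtain ⟨α, hα, K, hK⟩ := hS d hd
  refine ⟨α, hα, |K| * (1 + (max 2 (2 ^ r d) : ℕ) * b) ^ |α|, fun C hC hC' hdC hn => ?_⟩
  have h1 := hK C hC hC' hdC hn
  have h3' := one_le_siz A C
  have h2 : 0 ≤ siz A C ^ α := Real.rpow_nonneg (by linarith) _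
  calc q d C ≤ K * siz A C ^ α := h1
    _ ≤ |K| * siz A C ^ α := mul_le_mul_of_nonneg_right (le_abs_self K) h2
    _ ≤ |K| * ((1 + (max 2 (2 ^ r d) : ℕ) * b) ^ |α| * siz A' C ^ α) :=
        mul_le_mul_of_nonneg_left (h.rpow hC hn α) (abs_nonneg K)
    _ = _ := by ring

lemma Cmp.subQuad {b : ℝ} (h : Cmp real A A' b) (hS : SubQuad real q A) : SubQuad real q A' := by
  intro a ha
  obtain ⟨α, hα, K, hK⟩ := hS a ha
  refine ⟨α, hα, |K| * (1 + (2 : ℕ) * b) ^ |α|, fun b' hb' => ?_⟩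
  have h1 := hK b' hb'
  have h3' := one_le_siz A {a, b'}
  have h2 : 0 ≤ siz A {a, b'} ^ α := Real.rpow_nonneg (by linarith) _
  calc q a {a, b'} ≤ K * siz A {a, b'} ^ α := h1
    _ ≤ |K| * siz A {a, b'} ^ α := mul_le_mul_of_nonneg_right (le_abs_self K) h2
    _ ≤ |K| * ((1 + (2 : ℕ) * b) ^ |α| * siz A' {a, b'} ^ α) :=
        mul_le_mul_of_nonneg_left (h.rpow (pair_subset ha hb') Finset.card_le_two α) (abs_nonneg K)
    _ = _ := by ring

/-- All the assertions. -/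
structure Conc (real : Bool) (r : ℤ → ℕ) (q : ℤ → Finset ℤ → ℝ) (L : ℤ → ℂ → ℂ) (A : ℤ → ℝ)
    (c : ℤ → ℂ) : Prop where
  quadratic : (∀ ε : ℝ, 0 < ε → Lower real q A 1 ε) → SubQuad real q A → ∀ M : ℕ,
    {d ∈ Twists real | r d ≤ M ∧ analyticOrderAt (L d) 1 ≠ r d}.Finite
  rank : (∀ ε : ℝ, 0 < ε → Lower real q A 1 ε) → Sub real r q A → RankPart real r L
  degrees : List.TFAE [
      RankPart real r L ∧ ∀ ε : ℝ, 0 < ε → Upper real q A 1 ε ∧ Lower real q A 1 ε,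
      ∀ (n : ℕ) (ε : ℝ), 0 < ε → Upper real q A n ε ∧ Lower real q A n ε,
      (∀ ε : ℝ, 0 < ε → Upper real q A 1 ε ∧ Lower real q A 1 ε) ∧ Sub real r q A]
  asymptotic : (RankPart real r L ∧ ∀ d ∈ Twists real, q d {d} = 1) ↔
      (∀ ε : ℝ, 0 < ε → Lower real q A 1 ε) ∧ Sub real r q A ∧
      ∀ ε : ℝ, 0 < ε → ∃ j : ℕ, ∀ C : Finset ℤ, ↑C ⊆ Twists real → IsCoset C →
        C.card = 2 ^ j → ∀ d ∈ C, |q d C - 1| ≤ ε
  descent : RankPart real r L → ∀ (j : ℕ) (ε : ℝ),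
    (∀ C : Finset ℤ, ↑C ⊆ Twists real → IsCoset C → C.card = 2 ^ j → ∀ d ∈ C,
      |Real.log (q d C)| ≤ ε) → ∀ C : Finset ℤ, ↑C ⊆ Twists real → IsCoset C →
      C.card = 2 ^ (j + 1) → ∑ e ∈ C, (Real.log (q e {e})) ^ 2 ≤ 4 * ε ^ 2
  bounded : (∃ B : ℝ, 0 < B ∧ Bdd real q B) ↔
      RankPart real r L ∧ ∃ Φ : (ℕ → Bool) → ℝ, Measurable Φ ∧ (∃ M : ℝ, ∀ σ, |Φ σ| ≤ M) ∧
        ∀ d ∈ Twists real, Real.log (q d {d}) = ∫ σ, Φ σ * chiT d σ ∂coins
  squares : ∀ B : ℝ, 0 < B → Bdd real q B → ∀ T : Finset ℤ, ↑T ⊆ Twists real →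
    ∑ d ∈ T, (Real.log (q d {d})) ^ 2 ≤ 4 * (Real.log B) ^ 2

lemma lower_ne (h : ∀ ε : ℝ, 0 < ε → Lower real q A 1 ε) : ∀ d ∈ Twists real, q d {d} ≠ 0 := by
  intro d hd h0
  obtain ⟨K, hK, h1⟩ := h 1 one_pos
  have h2 := h1 {d} (sing_sub hd) (isCoset_singleton d) (by simp) d (by simp)
  rw [h0] at h2
  have h3 : 0 < siz A {d} ^ (-(1 : ℝ)) :=
    Real.rpow_pos_of_pos (by have := one_le_siz A {d}; linarith) _
  have := mul_pos hK h3
  linarith

lemma bdd_ne {B : ℝ} (hB : 0 < B) (h : Bdd real q B) : ∀ d ∈ Twists real, q d {d} ≠ 0 := by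
  intro d hd h0
  have h2 := (h {d} (sing_sub hd) (isCoset_singleton d) d (by simp)).1
  rw [h0] at h2
  have := inv_pos.2 hB
  linarith

theorem conc {γ : ℂ → ℂ} (hF : TwistFamily real γ L A c)
    (hgood : (∀ d ∈ Twists real, q d {d} ≠ 0) →
      {d ∈ Twists real | analyticOrderAt (L d) 1 = r d}.Infinite)
    (hb : ∀ n : ℕ, ∃ M : ℕ, ∀ d ∈ Twists real, d.natAbs.primeFactors.card ≤ n → r d ≤ M)
    (hq : IsQ real L r c q) {b : ℝ} (hA : Cmp real A A' b) : Conc real r q L A' c := by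
  have hU : ∀ {n : ℕ} {α : ℝ}, Upper real q A' n α ↔ Upper real q A n α :=
    fun {n α} => ⟨hA.symm.upper, hA.upper⟩
  have hL : ∀ {n : ℕ} {α : ℝ}, Lower real q A' n α ↔ Lower real q A n α :=
    fun {n α} => ⟨hA.symm.lower, hA.lower⟩
  have hS : Sub real r q A' ↔ Sub real r q A := ⟨hA.symm.sub, hA.sub⟩
  have hinf : RankPart real r L → {d ∈ Twists real | analyticOrderAt (L d) 1 = r d}.Infinite := by
    intro hR
    have h1 : {d ∈ Twists real | analyticOrderAt (L d) 1 = r d} =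
        {d ∈ Twists real | True} := by
      ext d
      exact ⟨fun h => ⟨h.1, trivial⟩, fun h => ⟨h.1, hR d h.1⟩⟩
    rw [h1, infinite_iff (real := real) (fun _ => True)]
    exact (om_one_infinite (real := real)).mono fun _ _ => trivial
  refine ⟨?_, ?_, ?_, ?_, ?_, ?_, ?_⟩
  · intro h1 h2 M
    exact quad_finite hF (hgood (lower_ne h1)) hq (fun ε hε => hL.1 (h1 ε hε))
      (hA.symm.subQuad h2) M
  · intro h1 h2
    exact sub_rank hF (hgood (lower_ne h1)) hb hq (fun ε hε => hL.1 (h1 ε hε)) (hS.1 h2)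
  · simp only [hU, hL, hS]
    tfae_have 1 → 2 := by
      rintro ⟨hR, h⟩ n ε hε
      exact ⟨upper_all hF hq hR (fun ε hε => (h ε hε).1) n ε hε,
        lower_all hF hq hR (fun ε hε => (h ε hε).2) n ε hε⟩
    tfae_have 2 → 3 := by
      intro h
      exact ((degrees_tfae hF (hgood (lower_ne fun ε hε => (h 1 ε hε).2)) hb hq).out 1 2).1 h
    tfae_have 3 → 1 := by
      rintro ⟨h1, h2⟩
      exact ⟨sub_rank hF (hgood (lower_ne fun ε hε => (h1 ε hε).2)) hb hq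
        (fun ε hε => (h1 ε hε).2) h2, h1⟩
    tfae_finish
  · simp only [hL, hS]
    constructor
    · rintro h
      exact (asym_tfae hF (hinf h.1) hb hq).1 h
    · rintro h
      exact (asym_tfae hF (hgood (lower_ne h.1)) hb hq).2 h
  · intro hR j ε h
    exact descent hF hq hR j ε h
  · constructor
    · rintro ⟨B, hB, h⟩
      exact (bdd_iff hF (hgood (bdd_ne hB h)) hb hq).1 ⟨B, hB, h⟩
    · rintro h
      exact (bdd_iff hF (hinf h.1) hb hq).2 h
  · intro B hB h T hT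
    exact Bdd.sum_sq hF (hgood (bdd_ne hB h)) hb hq hB h T hT

theorem isQ_quotK {a2 a4 a6 : ℤ} (hΔ : (gcurve a2 a4 a6 1).Δ ≠ 0) (L : ℤ → ℂ → ℂ) (c : ℤ → ℂ) :
    IsQ real L (rk a2 a4 a6) c (fun d C => ‖quotK a2 a4 a6 L c d C‖) := by
  intro C hC hC' d hd
  beta_reduce
  rw [quotK_eq hΔ L c real C hC' hC d hd]

theorem cmp_refl (A : ℤ → ℝ) : Cmp real A A 0 :=
  ⟨le_rfl, fun d _ => ⟨by linarith, by linarith⟩⟩

/-- The theorem for the twists of an elliptic curve. -/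
theorem conc_curve {a2 a4 a6 : ℤ} (hΔ : (gcurve a2 a4 a6 1).Δ ≠ 0) {γ : ℂ → ℂ}
    (hF : TwistFamily real γ L A c)
    (hgood : {d ∈ Twists real | analyticOrderAt (L d) 1 = rk a2 a4 a6 d}.Infinite) :
    Conc real (rk a2 a4 a6) (fun d C => ‖quotK a2 a4 a6 L c d C‖) L A c :=
  conc hF (fun _ => hgood) (rk_bound hΔ real) (isQ_quotK hΔ L c) (cmp_refl A)

theorem fam_cond_le (k : ℕ) : PPM.cond (-1) k ≤ 32 * k ^ 2 := by
  unfold PPM.cond
  rw [if_pos rfl]
  refine Nat.mul_le_mul_right _ ?_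
  split_ifs <;> norm_num

theorem famA_le (d : ℤ) (hd : d ∈ Twists true) : famA d ≤ 2 * d := by
  obtain ⟨h1, h2, h3⟩ := fam_toNat hd
  have h4 : (PPM.cond (-1) d.toNat : ℝ) ≤ ((32 * d.toNat ^ 2 : ℕ) : ℝ) := by
    exact_mod_cast fam_cond_le d.toNat
  have h6 : ((d.toNat : ℕ) : ℝ) = (d : ℝ) := by
    exact_mod_cast congrArg (fun z : ℤ => (z : ℝ)) h2
  have h5 : Real.sqrt (PPM.cond (-1) d.toNat) ≤ 6 * (d : ℝ) := by
    have h7 : (0 : ℝ) < d := by exact_mod_cast hd.2 rfl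
    refine Real.sqrt_le_iff.2 ⟨by positivity, h4.trans ?_⟩
    push_cast
    rw [h6]
    nlinarith
  unfold famA
  have h7 : (0 : ℝ) < d := by exact_mod_cast hd.2 rfl
  rw [div_le_iff₀ (by positivity)]
  nlinarith [Real.pi_gt_three]

theorem famA_cmp : Cmp true famA (fun d => (d : ℝ)) (Real.log 2) := by
  refine ⟨Real.log_nonneg (by norm_num), fun d hd => ?_⟩
  have h1 := famA_ge d hd
  have h2 := famA_le d hd
  have h3 := famA_pos d hd
  have h4 : (0 : ℝ) < d := by exact_mod_cast hd.2 rfl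
  have h5 : Real.log d - Real.log 2 ≤ Real.log (famA d) := by
    rw [← Real.log_div h4.ne' two_ne_zero]
    exact Real.log_le_log (by positivity) h1
  have h6 : Real.log (famA d) ≤ Real.log 2 + Real.log d := by
    rw [← Real.log_mul two_ne_zero h4.ne']
    exact Real.log_le_log h3 h2
  have h7 : |Real.log (famA d) - Real.log d| ≤ Real.log 2 := by
    rw [abs_le]
    constructor <;> linarith
  constructor
  · have := abs_sub_abs_le_abs_sub (Real.log (famA d)) (Real.log d)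
    linarith
  · have := abs_sub_abs_le_abs_sub (Real.log d) (Real.log (famA d))
    rw [abs_sub_comm] at this
    linarith

/-- Infinitely many of the congruent number curves have order equal to the rank, as soon as the
quotients over `ℚ` do not vanish. -/
theorem congr_good (L : ℤ → ℂ → ℂ) (c : ℤ → ℂ)
    (hL : ∀ d ∈ Twists true, Differentiable ℂ (L d))
    (hne : ∀ d ∈ Twists true, quotK 0 (-1) 0 L c d {d} ≠ 0) :
    {d ∈ Twists true | analyticOrderAt (L d) 1 = rk 0 (-1) 0 d}.Infinite := by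
  refine bb_congr.2.mono ?_
  intro b hb
  obtain ⟨h1, h2⟩ := bb_congr.1 b hb
  refine ⟨h1, ?_⟩
  have h3 := hne b h1
  rw [quotK_eq congr_disc L c true {b} (isCoset_singleton b) (by simpa using h1) b (by simp)] at h3
  unfold bsdQuot at h3
  simp only [Finset.sum_singleton, Finset.prod_singleton, h2, iteratedDeriv_zero,
    Nat.factorial_zero, Nat.cast_one, div_one] at h3
  have h4 : L b 1 ≠ 0 := by
    intro h0
    rw [h0, zero_div] at h3
    exact h3 rfl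
  rw [h2, ((hL b h1).analyticAt 1).analyticOrderAt_eq_zero.2 h4]
  rfl

open PPM in
/-- The congruent number curves. -/
theorem conc_congr (L : ℤ → ℂ → ℂ) (c : ℤ → ℂ)
    (hL : ∀ d ∈ Twists true, Differentiable ℂ (L d) ∧ EulerProduct (gcurve 0 (-1) 0 d) (L d))
    (hc : ∀ d ∈ Twists true, c d ≠ 0) :
    Conc true (rk 0 (-1) 0) (fun d C => ‖quotK 0 (-1) 0 L c d C‖) L (fun d => (d : ℝ)) c := by
  have hF : TwistFamily true Complex.Gamma L famA c :=
    ⟨fam_gamma, by rw [Complex.Gamma_one]; exact one_ne_zero,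
      fun d hd => (hL d hd).1.analyticAt 1, famA_pos,
      fun d hd => fam_fe d hd (L d) (hL d hd).1 (by rw [← gcurve_congr]; exact (hL d hd).2),
      fam_fin, hc⟩
  refine conc hF (fun h => congr_good L c (fun d hd => (hL d hd).1) fun d hd h0 => ?_)
    (rk_bound congr_disc true) (isQ_quotK congr_disc L c) famA_cmp
  have h1 := h d hd
  beta_reduce at h1
  rw [h0, norm_zero] at h1
  exact h1 rfl

end MQV
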