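import Pool.Agent.W_92892c_h28.CoreB2

/-!
Core with quotients of size `o(log A)`.
-/

namespace W92892c

open Finset Filter Topology

/-- Normalised Taylor data, with quotients `o(lam b)` for the pairs `{a, b}`, `b ∈ BB`. -/
structure DataG {D : Type*} (BB : Set D) (R : PowerSeries ℂ) (lam : D → ℝ)
    (F : D → PowerSeries ℂ) (k : D → ℕ) : Prop where
  odd : ∀ d j, Odd j → PowerSeries.coeff j
    (F d * PowerSeries.rescale (lam d : ℂ) (PowerSeries.exp ℂ) * R) = 0
  zero : ∀ d, PowerSeries.coeff 0 (F d) ≠ 0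
  top : ∀ d, PowerSeries.coeff (k d) (F d) = 1
  grow : Tendsto lam cofinite atTop
  inf : BB.Infinite
  good : ∀ b ∈ BB, k b = 0
  pair : ∀ a, ∀ ε : ℝ, 0 < ε → ∃ B : ℝ, ∀ b ∈ BB, b ≠ a →
    ‖PowerSeries.coeff (k a + k b) (F a * F b)‖ ≤ ε * |lam b| + B

theorem coreG_finite_one {D : Type*} {BB : Set D} {R : PowerSeries ℂ}
    (hR : PowerSeries.coeff 0 R = 1)
    {lam : D → ℝ} {F : D → PowerSeries ℂ} {k : D → ℕ} (h : DataG BB R lam F k) (n : ℕ) :
    {d | k d = n + 1}.Finite := by
  by_contra hinf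
  have hinf' : {d | k d = n + 1}.Infinite := hinf
  have : Infinite {d | k d = n + 1} := hinf'.to_subtype
  have : Infinite BB := h.inf.to_subtype
  have hnorm : ∀ s : Set D, Tendsto (fun i : s => ‖((-lam i : ℝ) : ℂ)‖) cofinite atTop := by
    intro s
    have h1 : Tendsto (fun i : s => lam i) cofinite atTop :=
      h.grow.comp Subtype.val_injective.tendsto_cofinite
    have h2 := tendsto_abs_atTop_atTop.comp h1
    refine h2.congr fun i => ?_
    simp only [Function.comp, Complex.norm_real, Real.norm_eq_abs, abs_neg]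
  have hR' : PowerSeries.coeff 0 R⁻¹ = 1 := by
    rw [PowerSeries.coeff_zero_eq_constantCoeff_apply, PowerSeries.constantCoeff_inv,
      ← PowerSeries.coeff_zero_eq_constantCoeff_apply, hR, inv_one]
  refine no_pair_bounded (G := R⁻¹) hR' n (hnorm {d | k d = n + 1}) (hnorm BB)
    (F := fun i : {d | k d = n + 1} => PowerSeries.C (PowerSeries.coeff 0 (F i))⁻¹ * F i)
    (F' := fun i : BB => PowerSeries.C (PowerSeries.coeff 0 (F i))⁻¹ * F i)
    (fun i => isType_normal hR (h.odd i) (h.zero i))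
    (fun i => isType_normal hR (h.odd i) (h.zero i)) ?_
  rintro ⟨a, ha⟩
  have ha' : k a = n + 1 := ha
  rw [Metric.tendsto_nhds]
  intro δ hδ
  set f0 : ℝ := ‖(PowerSeries.coeff 0 (F a))⁻¹‖ with hf0
  have hf0pos : 0 ≤ f0 := norm_nonneg _
  obtain ⟨B, hB⟩ := h.pair a (δ / (2 * (f0 + 1))) (by positivity)
  have hev := (hnorm BB).eventually_gt_atTop (2 * f0 * |B| / δ + 1)
  filter_upwards [hev] with i hi
  obtain ⟨b, hb⟩ := i
  have hb' : k b = 0 := h.good b hb
  have hab : b ≠ a := by
    rintro rfl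
    omega
  have h1 := hB b hb hab
  have h3 := h.top b
  rw [ha', hb', add_zero] at h1
  rw [hb'] at h3
  have hl : ‖((-lam b : ℝ) : ℂ)‖ = |lam b| := by
    rw [Complex.norm_real, Real.norm_eq_abs, abs_neg]
  simp only at hi
  rw [hl] at hi
  have hlpos : 0 < |lam b| := by
    have : 0 ≤ 2 * f0 * |B| / δ := by positivity
    linarith
  simp only
  rw [h3, inv_one, map_one, one_mul, mul_assoc, PowerSeries.coeff_C_mul, dist_zero_right, norm_mul,
    norm_mul, norm_inv, hl, ← hf0]
  have h4 : f0 * ‖PowerSeries.coeff (n + 1) (F a * F b)‖ ≤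
      f0 * (δ / (2 * (f0 + 1)) * |lam b| + B) := mul_le_mul_of_nonneg_left h1 hf0pos
  have h5 : f0 * (δ / (2 * (f0 + 1))) ≤ δ / 2 := by
    rw [mul_div_assoc', div_le_div_iff₀ (by positivity) (by norm_num)]
    nlinarith
  have h6 : f0 * |B| < δ / 2 * |lam b| := by
    have h7 : 2 * f0 * |B| / δ < |lam b| := by linarith
    rw [div_lt_iff₀ hδ] at h7
    linarith
  have h8 : f0 * B ≤ f0 * |B| := mul_le_mul_of_nonneg_left (le_abs_self B) hf0pos
  have h9 : f0 * (δ / (2 * (f0 + 1))) * |lam b| ≤ δ / 2 * |lam b| :=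
    mul_le_mul_of_nonneg_right h5 hlpos.le
  have h10 : f0 * ‖PowerSeries.coeff (n + 1) (F a * F b)‖ < δ * |lam b| := by
    calc _ ≤ f0 * (δ / (2 * (f0 + 1)) * |lam b| + B) := h4
      _ = f0 * (δ / (2 * (f0 + 1))) * |lam b| + f0 * B := by ring
      _ < δ * |lam b| := by linarith
  rw [inv_mul_eq_div, div_lt_iff₀ hlpos]
  exact h10

theorem coreG_finite {D : Type*} {BB : Set D} {R : PowerSeries ℂ}
    (hR : PowerSeries.coeff 0 R = 1)
    {lam : D → ℝ} {F : D → PowerSeries ℂ} {k : D → ℕ} (h : DataG BB R lam F k) (M : ℕ) :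
    {d | 1 ≤ k d ∧ k d ≤ M}.Finite := by
  have h1 : {d | 1 ≤ k d ∧ k d ≤ M} ⊆ ⋃ n ∈ Finset.range M, {d | k d = n + 1} := by
    rintro d ⟨hd1, hd2⟩
    simp only [Set.mem_iUnion, Finset.mem_range, Set.mem_ofPred_eq, exists_prop]
    exact ⟨k d - 1, by omega, by omega⟩
  refine Set.Finite.subset ?_ h1
  exact Set.Finite.biUnion (Finset.finite_toSet _) fun n _ => coreG_finite_one hR h n

/-- A basis through a given element. -/
theorem exists_basis_mem {D : Type*} [AddCommGroup D] [DecidableEq D] (h2 : ∀ d : D, d + d = 0)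
    {V : Finset D} (hV : IsSub V) {n : ℕ} (hn : V.card = 2 ^ n) {s : D} (hs : s ∈ V)
    (hs0 : s ≠ 0) : ∃ T ⊆ V.erase 0, T.card = n ∧ cl T = V ∧ s ∈ T := by
  have hn1 : 1 ≤ n := by
    rcases Nat.eq_zero_or_pos n with h | h
    · exfalso
      rw [h, pow_zero, Finset.card_eq_one] at hn
      obtain ⟨x, hx⟩ := hn
      have h3 : s = x := by rw [hx, Finset.mem_singleton] at hs; exact hs
      have h4 : (0 : D) = x := by
        have := hV.1
        rw [hx, Finset.mem_singleton] at this
        exact this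
      exact hs0 (h3.trans h4.symm)
    · exact h
  have key : ∀ j : ℕ, 1 ≤ j → j ≤ n →
      ∃ T ⊆ V.erase 0, T.card = j ∧ (cl T).card = 2 ^ j ∧ s ∈ T := by
    intro j hj
    induction j, hj using Nat.le_induction with
    | base =>
      intro _
      refine ⟨{s}, ?_, Finset.card_singleton s, ?_, Finset.mem_singleton_self s⟩
      · intro x hx
        rw [Finset.mem_singleton] at hx
        subst hx
        exact Finset.mem_erase.2 ⟨hs0, hs⟩
      · have h3 := (cl_insert h2 ∅ s (by rw [cl_empty, Finset.mem_singleton]; exact hs0)).2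
        rw [cl_empty, Finset.card_singleton, insert_empty_eq] at h3
        rw [h3]
        norm_num
    | succ j hj ih =>
      intro hjn
      obtain ⟨T, hT, hTc, hTcl, hsT⟩ := ih (by omega)
      have hsub : cl T ⊆ V := cl_subset hV (hT.trans (Finset.erase_subset _ _))
      have hlt : (cl T).card < V.card := by
        rw [hTcl, hn]
        exact Nat.pow_lt_pow_right (by norm_num) (by omega)
      obtain ⟨w, hwV, hwT⟩ := Finset.exists_mem_notMem_of_card_lt_card hlt
      have hw0 : w ≠ 0 := fun hh => hwT (by rw [hh]; exact zero_mem_cl T)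
      have hwT' : w ∉ T := fun hh => hwT (subset_cl T hh)
      refine ⟨insert w T, ?_, by rw [Finset.card_insert_of_notMem hwT', hTc], ?_,
        Finset.mem_insert_of_mem hsT⟩
      · intro x hx
        rcases Finset.mem_insert.1 hx with h3 | h3
        · rw [h3]; exact Finset.mem_erase.2 ⟨hw0, hwV⟩
        · exact hT h3
      · rw [(cl_insert h2 T w hwT).2, hTcl, pow_succ]
        ring
  obtain ⟨T, hT, hTc, hTcl, hsT⟩ := key n hn1 le_rfl
  refine ⟨T, hT, hTc, ?_, hsT⟩
  exact Finset.eq_of_subset_of_card_le (cl_subset hV (hT.trans (Finset.erase_subset _ _)))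
    (by rw [hn, hTcl])

end W92892c
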