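import Pool.Agent.W_92892c_h14.CoreG

/-!
Step 3 with quotients of size `o(log A)`.
-/

namespace W92892c

open Finset Filter Topology

/-- The coset bound: `o` of the sum of the `lam`. -/
theorem coreG_zero {D : Type*} [AddCommGroup D] (h2 : ∀ d : D, d + d = 0)
    (ω : D → ℕ) (hω : ∀ a b, ω (a + b) ≤ ω a + ω b) (hω1 : {v | ω v ≤ 1}.Infinite)
    {R : PowerSeries ℂ} (hR : PowerSeries.coeff 0 R = 1)
    {BB : Set D} {lam : D → ℝ} {F : D → PowerSeries ℂ} {k : D → ℕ} (h : DataG BB R lam F k)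
    (hbdd : ∀ n, ∃ M, ∀ d, ω d ≤ n → k d ≤ M) (a : D)
    (hV : ∀ ε : ℝ, 0 < ε → ∃ B : ℝ, ∀ V : Finset D, 0 ∈ V → (∀ u ∈ V, ∀ v ∈ V, u + v ∈ V) →
      V.card ≤ 2 ^ k a →
      ‖PowerSeries.coeff (∑ v ∈ V, k (a + v)) (∏ v ∈ V, F (a + v))‖ ≤
        ε * ∑ v ∈ V, |lam (a + v)| + B) :
    k a = 0 := by
  classical
  by_contra hne
  set k0 := k a with hk0
  have hk1 : 1 ≤ k0 := Nat.one_le_iff_ne_zero.2 hne
  set g : ℂ := PowerSeries.coeff 1 R with hg
  set C0 : ℝ := ((2 : ℝ) ^ (2 ^ k0) + 1) ^ (2 ^ k0) with hC0def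
  have hC0 : 0 < C0 := by positivity
  set f0 : ℝ := ‖PowerSeries.coeff 0 (F a)‖ with hf0def
  have hf0pos : 0 < f0 := norm_pos_iff.2 (h.zero a)
  set ε : ℝ := f0 / (8 * C0 * 2 ^ k0) with hεdef
  have hε : 0 < ε := by positivity
  obtain ⟨K', hV'⟩ := hV ε hε
  set K : ℝ := max K' 0 with hKdef
  have hK : 0 ≤ K := le_max_right _ _
  have hV : ∀ V : Finset D, 0 ∈ V → (∀ u ∈ V, ∀ v ∈ V, u + v ∈ V) → V.card ≤ 2 ^ k0 →
      ‖PowerSeries.coeff (∑ v ∈ V, k (a + v)) (∏ v ∈ V, F (a + v))‖ ≤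
        ε * ∑ v ∈ V, |lam (a + v)| + K :=
    fun V h0 hadd hc => (hV' V h0 hadd hc).trans (by
      have := le_max_left K' 0
      linarith)
  set B : ℝ := max (2 * (k0 : ℝ) * ‖g‖ + 1) (8 * (C0 * (ε * |lam a| + K)) / f0 + 1) with hB
  -- the bad set
  have hbadfin : ({d | ω d ≤ ω a + k0 ∧ 1 ≤ k d} ∪ {d | ¬ B ≤ lam d}).Finite := by
    refine Set.Finite.union ?_ ?_
    · obtain ⟨M, hM⟩ := hbdd (ω a + k0)
      refine (coreG_finite hR h M).subset ?_
      rintro d ⟨hd1, hd2⟩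
      exact ⟨hd2, hM d hd1⟩
    · exact Filter.eventually_cofinite.1 (h.grow.eventually_ge_atTop B)
  set bad : Finset D := hbadfin.toFinset with hbad
  have hmembad : ∀ d, d ∈ bad ↔ (ω d ≤ ω a + k0 ∧ 1 ≤ k d) ∨ ¬ B ≤ lam d := by
    intro d
    rw [hbad, Set.Finite.mem_toFinset]
    rfl
  -- generators
  have hgen : ∀ j : ℕ, ∃ S : Finset D, S.card = j ∧ (0 : D) ∉ S ∧ (cl S).card = 2 ^ j ∧
      ∀ v ∈ cl S, v ≠ 0 → a + v ∉ bad ∧ ω v ≤ j := by
    intro j
    induction j with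
    | zero =>
      refine ⟨∅, rfl, by simp, by rw [cl_empty]; simp, ?_⟩
      intro v hv hv0
      rw [cl_empty, Finset.mem_singleton] at hv
      exact absurd hv hv0
    | succ j ih =>
      obtain ⟨S, hScard, hS0, hScl, hSv⟩ := ih
      set Q : Finset D := cl S ∪ (bad ×ˢ cl S).image (fun q => q.1 - a - q.2) with hQ
      obtain ⟨w, hw1, hwQ⟩ := hω1.exists_notMem_finset Q
      rw [hQ, Finset.mem_union, not_or] at hwQ
      obtain ⟨hwcl, hwim⟩ := hwQ
      obtain ⟨hins, hcard⟩ := cl_insert h2 S w hwcl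
      have hwS : w ∉ S := fun hh => hwcl (subset_cl S hh)
      have hw0 : w ≠ 0 := fun hh => hwcl (by rw [hh]; exact zero_mem_cl S)
      refine ⟨insert w S, by rw [Finset.card_insert_of_notMem hwS, hScard], ?_, ?_, ?_⟩
      · rw [Finset.mem_insert, not_or]
        exact ⟨fun hh => hw0 hh.symm, hS0⟩
      · rw [hcard, hScl, pow_succ]; ring
      · intro v hv hv0
        rcases hins v hv with hv' | ⟨u, hu, rfl⟩
        · obtain ⟨h3, h4⟩ := hSv v hv' hv0
          exact ⟨h3, by omega⟩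
        · refine ⟨?_, ?_⟩
          · intro hh
            apply hwim
            refine Finset.mem_image.2 ⟨(a + (w + u), u), Finset.mem_product.2 ⟨hh, hu⟩, ?_⟩
            simp only
            abel
          · by_cases hu0 : u = 0
            · rw [hu0, add_zero]
              have : ω w ≤ 1 := hw1
              omega
            · have h3 := (hSv u hu hu0).2
              have h4 : ω w ≤ 1 := hw1
              have h5 := hω w u
              omega
  obtain ⟨S, hScard, hS0, hScl, hSv⟩ := hgen k0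
  set V := cl S with hVdef
  have hVsub : IsSub V := isSub_cl h2 S
  have hgood : ∀ v ∈ V, v ≠ 0 → k (a + v) = 0 ∧ B ≤ lam (a + v) := by
    intro v hv hv0
    obtain ⟨h3, h4⟩ := hSv v hv hv0
    rw [hmembad, not_or, not_not] at h3
    refine ⟨?_, h3.2⟩
    have h5 := hω a v
    by_contra hcon
    exact h3.1 ⟨by omega, by omega⟩
  -- the maximal element
  have hVne : (V.erase 0).Nonempty := by
    rw [← Finset.card_pos, Finset.card_erase_of_mem hVsub.1, hScl]
    have : 2 ^ 1 ≤ 2 ^ k0 := Nat.pow_le_pow_right (by norm_num) hk1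
    omega
  obtain ⟨s0, hs0, hmax⟩ := Finset.exists_max_image (V.erase 0) (fun v => lam (a + v)) hVne
  obtain ⟨hs00, hs0V⟩ := Finset.mem_erase.1 hs0
  set m : ℝ := lam (a + s0) with hm
  have hBle1 : 2 * (k0 : ℝ) * ‖g‖ + 1 ≤ B := le_max_left _ _
  have hBle2 : 8 * (C0 * (ε * |lam a| + K)) / f0 + 1 ≤ B := le_max_right _ _
  have hB1' : 1 ≤ B := by
    have : 0 ≤ 2 * (k0 : ℝ) * ‖g‖ := by positivity
    linarith
  have hmB : B ≤ m := (hgood s0 hs0V hs00).2
  set Λ : ℝ := ∑ v ∈ V, |lam (a + v)| with hΛ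
  have hΛle : Λ ≤ |lam a| + 2 ^ k0 * m := by
    rw [hΛ, ← Finset.add_sum_erase V _ hVsub.1, add_zero]
    have h3 : ∑ v ∈ V.erase 0, |lam (a + v)| ≤ ∑ v ∈ V.erase 0, m := by
      refine Finset.sum_le_sum fun v hv => ?_
      have h4 := hmax v hv
      have h5 := (hgood v (Finset.mem_of_mem_erase hv) (Finset.ne_of_mem_erase hv)).2
      rw [abs_of_nonneg (by linarith)]
      exact h4
    have h4 : ∑ v ∈ V.erase 0, m = ((V.erase 0).card : ℝ) * m := by
      rw [Finset.sum_const, nsmul_eq_mul]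
    have h5 : ((V.erase 0).card : ℝ) ≤ 2 ^ k0 := by
      have h6 : (V.erase 0).card ≤ 2 ^ k0 := Finset.card_erase_le.trans hScl.le
      exact_mod_cast h6
    have h6 : ((V.erase 0).card : ℝ) * m ≤ 2 ^ k0 * m :=
      mul_le_mul_of_nonneg_right h5 (by linarith)
    linarith
  set B1 : ℝ := ε * Λ + K with hB1def
  have hΛ0 : 0 ≤ Λ := Finset.sum_nonneg fun v _ => abs_nonneg _
  have hB1 : 0 ≤ B1 := by positivity
  let c : Finset D → ℂ := fun T =>
    PowerSeries.coeff k0 (F a * ∏ s ∈ T, (F (a + s) - 1))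
  have hW : ∀ W ⊆ V, IsSub W → ‖∑ T ∈ (W.erase 0).powerset, c T‖ ≤ B1 := by
    intro W hWV hWsub
    have h3 := hV W hWsub.1 hWsub.2 ((Finset.card_le_card hWV).trans_eq hScl)
    have h3' : ‖PowerSeries.coeff (∑ v ∈ W, k (a + v)) (∏ v ∈ W, F (a + v))‖ ≤ B1 := by
      refine h3.trans ?_
      have h4 : ∑ v ∈ W, |lam (a + v)| ≤ Λ :=
        Finset.sum_le_sum_of_subset_of_nonneg hWV fun v _ _ => abs_nonneg _
      have h5 := mul_le_mul_of_nonneg_left h4 hε.le
      linarith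
    rw [← Finset.add_sum_erase W _ hWsub.1, ← Finset.mul_prod_erase W _ hWsub.1, add_zero] at h3'
    have h4 : ∑ v ∈ W.erase 0, k (a + v) = 0 :=
      Finset.sum_eq_zero fun v hv =>
        (hgood v (hWV (Finset.mem_of_mem_erase hv)) (Finset.ne_of_mem_erase hv)).1
    rw [h4, add_zero, ← hk0] at h3'
    have h5 : ∏ v ∈ W.erase 0, F (a + v) = ∏ v ∈ W.erase 0, (1 + (F (a + v) - 1)) :=
      Finset.prod_congr rfl fun v _ => by ring
    rw [h5, Finset.prod_one_add, Finset.mul_sum, map_sum] at h3'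
    exact h3'
  have hpsi := psi_bound h2 c V B1 hB1 hW V.card V le_rfl (Finset.Subset.refl _) hVsub
  rw [hScl, ← hC0def] at hpsi
  -- evaluate
  have hmu : ∀ T ⊆ V.erase 0, ∀ s ∈ T, PowerSeries.coeff 0 (F (a + s) - 1) = 0 := by
    intro T hT s hs
    have h3 := Finset.mem_erase.1 (hT hs)
    have h4 := h.top (a + s)
    rw [(hgood s h3.2 h3.1).1] at h4
    rw [map_sub, h4]
    simp
  have hcval : ∀ T ∈ (V.erase 0).powerset.filter (fun T => cl T = V),
      c T = if T.card = k0 then (-1) ^ k0 * (PowerSeries.coeff 0 (F a) *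
        ∏ s ∈ T, ((lam (a + s) : ℂ) + g)) else 0 := by
    intro T hT
    rw [Finset.mem_filter, Finset.mem_powerset] at hT
    obtain ⟨hTV, hTcl⟩ := hT
    have hle : k0 ≤ T.card := by
      have h3 := card_cl_le T
      rw [hTcl, hScl] at h3
      exact (Nat.pow_le_pow_iff_right (by norm_num)).1 h3
    split_ifs with hcard
    · simp only [c]
      rw [← hcard, coeff_mul_prod_eq _ _ _ (hmu T hTV)]
      have h4 : ∀ s ∈ T, PowerSeries.coeff 1 (F (a + s) - 1) =
          (-1) * ((lam (a + s) : ℂ) + g) := by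
        intro s hs
        have h3 := Finset.mem_erase.1 (hTV hs)
        have h5 := h.top (a + s)
        rw [(hgood s h3.2 h3.1).1] at h5
        have h6 := coeff_one_of_odd hR (h.odd (a + s) 1 odd_one) h5
        rw [map_sub, h6, ← hg]
        have h7 : PowerSeries.coeff 1 (1 : PowerSeries ℂ) = 0 := by
          rw [PowerSeries.coeff_one]; simp
        rw [h7]
        ring
      rw [Finset.prod_congr rfl h4, Finset.prod_mul_distrib, Finset.prod_const]
      ring
    · exact coeff_mul_prod_lt _ _ _ (hmu T hTV) _ (by omega)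
  rw [Finset.sum_congr rfl hcval, ← Finset.sum_filter, ← Finset.mul_sum, ← Finset.mul_sum,
    norm_mul, norm_mul, norm_pow, norm_neg, norm_one, one_pow, one_mul, ← hf0def] at hpsi
  obtain ⟨T0, hT0V, hT0c, hT0cl, hsT0⟩ := exists_basis_mem h2 hVsub hScl hs0V hs00
  have hSmem : T0 ∈ ((V.erase 0).powerset.filter (fun T => cl T = V)).filter
      (fun T => T.card = k0) := by
    rw [Finset.mem_filter, Finset.mem_filter, Finset.mem_powerset]
    exact ⟨⟨hT0V, hT0cl⟩, hT0c⟩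
  have hge : ∀ T ∈ ((V.erase 0).powerset.filter (fun T => cl T = V)).filter
      (fun T => T.card = k0), (∏ s ∈ T, lam (a + s)) / 4 ≤
        (∏ s ∈ T, ((lam (a + s) : ℂ) + g)).re ∧ 1 ≤ ∏ s ∈ T, lam (a + s) := by
    intro T hT
    rw [Finset.mem_filter, Finset.mem_filter, Finset.mem_powerset] at hT
    obtain ⟨⟨hTV, _⟩, hcard⟩ := hT
    have hlam : ∀ s ∈ T, B ≤ lam (a + s) := by
      intro s hs
      have h3 := Finset.mem_erase.1 (hTV hs)
      exact (hgood s h3.2 h3.1).2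
    have h3 := re_prod_ge T k0 hcard.le (fun s => lam (a + s)) g
      (fun s hs => hBle1.trans (hlam s hs))
    refine ⟨h3, ?_⟩
    calc (1 : ℝ) = ∏ s ∈ T, (1 : ℝ) := by rw [Finset.prod_const_one]
      _ ≤ ∏ s ∈ T, lam (a + s) :=
          Finset.prod_le_prod (fun s _ => by norm_num) fun s hs => hB1'.trans (hlam s hs)
  have hmle : m ≤ ∏ s ∈ T0, lam (a + s) := by
    rw [← Finset.mul_prod_erase T0 _ hsT0, ← hm]
    have h3 : 1 ≤ ∏ s ∈ T0.erase s0, lam (a + s) := by
      calc (1 : ℝ) = ∏ s ∈ T0.erase s0, (1 : ℝ) := by rw [Finset.prod_const_one]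
        _ ≤ ∏ s ∈ T0.erase s0, lam (a + s) :=
          Finset.prod_le_prod (fun s _ => by norm_num) fun s hs => by
            have h4 := Finset.mem_erase.1 (hT0V (Finset.mem_of_mem_erase hs))
            exact hB1'.trans (hgood s h4.2 h4.1).2
    nlinarith
  have hre : m / 4 ≤ (∑ T ∈ ((V.erase 0).powerset.filter (fun T => cl T = V)).filter
      (fun T => T.card = k0), ∏ s ∈ T, ((lam (a + s) : ℂ) + g)).re := by
    rw [Complex.re_sum]
    have h3 : m / 4 ≤ (∏ s ∈ T0, ((lam (a + s) : ℂ) + g)).re := by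
      have := (hge T0 hSmem).1
      linarith
    refine h3.trans ?_
    refine Finset.single_le_sum (f := fun T => (∏ s ∈ T, ((lam (a + s) : ℂ) + g)).re)
      (fun T hT => ?_) hSmem
    obtain ⟨h4, h5⟩ := hge T hT
    linarith
  have hnorm := hre.trans (Complex.re_le_norm _)
  have h6 : f0 * (m / 4) ≤ B1 * C0 := (mul_le_mul_of_nonneg_left hnorm hf0pos.le).trans hpsi
  have h7 : B1 ≤ ε * (2 ^ k0 * m) + (ε * |lam a| + K) := by
    have := mul_le_mul_of_nonneg_left hΛle hε.le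
    rw [hB1def]
    linarith
  have h8 : B1 * C0 ≤ (ε * (2 ^ k0 * m) + (ε * |lam a| + K)) * C0 :=
    mul_le_mul_of_nonneg_right h7 hC0.le
  have h9 : ε * (2 ^ k0 * m) * C0 = f0 * m / 8 := by
    rw [hεdef]
    field_simp
  have h10 : 8 * (C0 * (ε * |lam a| + K)) / f0 + 1 ≤ m := hBle2.trans hmB
  have h11 : f0 * (8 * (C0 * (ε * |lam a| + K)) / f0 + 1) = 8 * (C0 * (ε * |lam a| + K)) + f0 := by
    field_simp
  have h12 := mul_le_mul_of_nonneg_left h10 hf0pos.le
  rw [h11] at h12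
  nlinarith

end W92892c
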