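import Pool.Agent.W_92892c_h14.Wrap

/-!
The formula up to a factor `(log A)^(o(1))`: equivalences.
-/

namespace MQV

open Finset Filter PowerSeries Topology

variable {real : Bool} {L : ℤ → ℂ → ℂ} {r : ℤ → ℕ} {c : ℤ → ℂ} {A : ℤ → ℝ}
  {q : ℤ → Finset ℤ → ℝ}

/-- The rank part for all twists. -/
def RankPart (real : Bool) (r : ℤ → ℕ) (L : ℤ → ℂ → ℂ) : Prop :=
  ∀ d ∈ Twists real, analyticOrderAt (L d) 1 = r d

/-- Upper bound `K (size)^α` over the fields of degree at most `n`. -/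
def Upper (real : Bool) (q : ℤ → Finset ℤ → ℝ) (A : ℤ → ℝ) (n : ℕ) (α : ℝ) : Prop :=
  ∃ K : ℝ, ∀ C : Finset ℤ, ↑C ⊆ Twists real → IsCoset C → C.card ≤ n → ∀ d ∈ C,
    q d C ≤ K * siz A C ^ α

/-- Lower bound `K (size)^(-α)`, `K > 0`, over the fields of degree at most `n`. -/
def Lower (real : Bool) (q : ℤ → Finset ℤ → ℝ) (A : ℤ → ℝ) (n : ℕ) (α : ℝ) : Prop :=
  ∃ K : ℝ, 0 < K ∧ ∀ C : Finset ℤ, ↑C ⊆ Twists real → IsCoset C → C.card ≤ n → ∀ d ∈ C,
    K * siz A C ^ (-α) ≤ q d C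

/-- Upper bounds with exponents less than `1` over the fields of degree at most
`max 2 (2 ^ r d)`, for each `d`. -/
def Sub (real : Bool) (r : ℤ → ℕ) (q : ℤ → Finset ℤ → ℝ) (A : ℤ → ℝ) : Prop :=
  ∀ d ∈ Twists real, ∃ α : ℝ, α < 1 ∧ ∃ K : ℝ, ∀ C : Finset ℤ, ↑C ⊆ Twists real → IsCoset C →
    d ∈ C → C.card ≤ max 2 (2 ^ r d) → q d C ≤ K * siz A C ^ α

/-- Upper bounds with exponents less than `1` over quadratic fields. -/
def SubQuad (real : Bool) (q : ℤ → Finset ℤ → ℝ) (A : ℤ → ℝ) : Prop :=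
  ∀ a ∈ Twists real, ∃ α : ℝ, α < 1 ∧ ∃ K : ℝ, ∀ b ∈ Twists real,
    q a {a, b} ≤ K * siz A {a, b} ^ α

/-- `q` is the absolute value of the quotient. -/
def IsQ (real : Bool) (L : ℤ → ℂ → ℂ) (r : ℤ → ℕ) (c : ℤ → ℂ) (q : ℤ → Finset ℤ → ℝ) : Prop :=
  ∀ C : Finset ℤ, ↑C ⊆ Twists real → IsCoset C → ∀ d ∈ C, q d C = ‖bsdQuot L r c C‖

lemma sing_sub {d : ℤ} (hd : d ∈ Twists real) : (↑({d} : Finset ℤ) : Set ℤ) ⊆ Twists real := by
  simpa using hd

theorem IsQ.low (hq : IsQ real L r c q) (hlow : ∀ ε : ℝ, 0 < ε → Lower real q A 1 ε) :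
    ∀ ε : ℝ, 0 < ε → ∃ K : ℝ, 0 < K ∧ ∀ d ∈ Twists real,
      K * siz A {d} ^ (-ε) ≤ ‖bsdQuot L r c {d}‖ := by
  intro ε hε
  obtain ⟨K, hK, h⟩ := hlow ε hε
  refine ⟨K, hK, fun d hd => ?_⟩
  rw [← hq {d} (sing_sub hd) (isCoset_singleton d) d (by simp)]
  exact h {d} (sing_sub hd) (isCoset_singleton d) (by simp) d (by simp)

theorem IsQ.pair (hq : IsQ real L r c q) (h : SubQuad real q A) :
    ∀ a ∈ Twists real, ∃ α : ℝ, α < 1 ∧ ∃ K : ℝ, ∀ b ∈ Twists real,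
      ‖bsdQuot L r c {a, b}‖ ≤ K * siz A {a, b} ^ α := by
  intro a ha
  obtain ⟨α, hα, K, hK⟩ := h a ha
  refine ⟨α, hα, K, fun b hb => ?_⟩
  rw [← hq {a, b} (pair_subset ha hb) (isCoset_pair a b) a (by simp)]
  exact hK b hb

theorem Sub.quad (h : Sub real r q A) : SubQuad real q A := by
  intro a ha
  obtain ⟨α, hα, K, hK⟩ := h a ha
  exact ⟨α, hα, K, fun b hb => hK {a, b} (pair_subset ha hb) (isCoset_pair a b) (by simp)
    (Finset.card_le_two.trans (le_max_left _ _))⟩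

/-- Quadratic fields: finitely many exceptions of bounded rank. -/
theorem quad_finite {γ : ℂ → ℂ} (hF : TwistFamily real γ L A c)
    (hgood : {d ∈ Twists real | analyticOrderAt (L d) 1 = r d}.Infinite)
    (hq : IsQ real L r c q) (hlow : ∀ ε : ℝ, 0 < ε → Lower real q A 1 ε)
    (h : SubQuad real q A) (M : ℕ) :
    {d ∈ Twists real | r d ≤ M ∧ analyticOrderAt (L d) 1 ≠ r d}.Finite :=
  (approx_core hF hgood (hq.low hlow) (hq.pair h)).1 M

/-- The gap theorem. -/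
theorem sub_rank {γ : ℂ → ℂ} (hF : TwistFamily real γ L A c)
    (hgood : {d ∈ Twists real | analyticOrderAt (L d) 1 = r d}.Infinite)
    (hb : ∀ n : ℕ, ∃ M : ℕ, ∀ d ∈ Twists real, d.natAbs.primeFactors.card ≤ n → r d ≤ M)
    (hq : IsQ real L r c q) (hlow : ∀ ε : ℝ, 0 < ε → Lower real q A 1 ε)
    (h : Sub real r q A) : RankPart real r L := by
  intro d hd
  refine (approx_core hF hgood (hq.low hlow) (hq.pair h.quad)).2 hb d hd ?_
  obtain ⟨α, hα, K, hK⟩ := h d hd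
  refine ⟨α, hα, K, fun C hC hC' hdC hcard => ?_⟩
  rw [← hq C hC hC' d hdC]
  exact hK C hC hC' hdC (hcard.trans (le_max_right _ _))

/-- If the order is the rank for all twists, the quotients are products of the quotients over `ℚ`. -/
theorem quot_prod {γ : ℂ → ℂ} (hF : TwistFamily real γ L A c) (hR : RankPart real r L) :
    (∀ d ∈ Twists real, bsdQuot L r c {d} ≠ 0) ∧ ∀ C : Finset ℤ, ↑C ⊆ Twists real →
      bsdQuot L r c C = ∏ e ∈ C, bsdQuot L r c {e} := by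
  have h1 : ∀ d ∈ Twists real, (∀ i < r d, iteratedDeriv i (L d) 1 = 0) ∧
      iteratedDeriv (r d) (L d) 1 ≠ 0 := fun d hd =>
    (analyticOrderAt_eq_nat_iff_iteratedDeriv_eq_zero (hF.an d hd)).1 (hR d hd)
  have hq : ∀ d : ℤ, bsdQuot L r c {d} =
      iteratedDeriv (r d) (L d) 1 / ((r d).factorial : ℂ) / c d := by
    intro d
    unfold bsdQuot
    simp only [Finset.sum_singleton, Finset.prod_singleton]
  have hne : ∀ d ∈ Twists real, bsdQuot L r c {d} ≠ 0 := by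
    intro d hd
    rw [hq]
    have h2 : ((r d).factorial : ℂ) ≠ 0 := by exact_mod_cast (r d).factorial_ne_zero
    exact div_ne_zero (div_ne_zero (h1 d hd).2 h2) (hF.ne d hd)
  refine ⟨hne, fun C hC => ?_⟩
  have hF' := hF.ren hne
  have h2 : ∀ d ∈ Twists real, BSD (L d) (r d) (renc L r c d) := by
    intro d hd
    refine ⟨(h1 d hd).1, ?_⟩
    unfold renc
    rw [hq, mul_div_cancel₀ _ (hF.ne d hd)]
  have h3 := quot_of_bsd' real L r (renc L r c) hF'.an hF'.ne h2 C hC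
  rw [bsdQuot_renc, div_eq_one_iff_eq
    (Finset.prod_ne_zero_iff.2 fun e he => hne e (hC he))] at h3
  exact h3

theorem IsQ.prod {γ : ℂ → ℂ} (hq : IsQ real L r c q) (hF : TwistFamily real γ L A c)
    (hR : RankPart real r L) : (∀ d ∈ Twists real, 0 < q d {d}) ∧
    ∀ C : Finset ℤ, ↑C ⊆ Twists real → IsCoset C → ∀ d ∈ C, q d C = ∏ e ∈ C, q e {e} := by
  obtain ⟨h1, h2⟩ := quot_prod hF hR
  have h3 : ∀ d ∈ Twists real, q d {d} = ‖bsdQuot L r c {d}‖ := fun d hd =>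
    hq {d} (sing_sub hd) (isCoset_singleton d) d (by simp)
  refine ⟨fun d hd => ?_, fun C hC hC' d hd => ?_⟩
  · rw [h3 d hd]
    exact norm_pos_iff.2 (h1 d hd)
  · rw [hq C hC hC' d hd, h2 C hC, norm_prod]
    exact Finset.prod_congr rfl fun e he => (h3 e (hC he)).symm

theorem upper_all {γ : ℂ → ℂ} (hF : TwistFamily real γ L A c) (hq : IsQ real L r c q)
    (hR : RankPart real r L) (h : ∀ ε : ℝ, 0 < ε → Upper real q A 1 ε) (n : ℕ) (ε : ℝ)
    (hε : 0 < ε) : Upper real q A n ε := by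
  obtain ⟨h0, hp⟩ := hq.prod hF hR
  have hn0 : (0 : ℝ) < (n : ℝ) + 1 := by positivity
  obtain ⟨K, hK⟩ := h (ε / (n + 1)) (by positivity)
  refine ⟨(max K 1) ^ n, fun C hC hC' hcard d hd => ?_⟩
  have hs := one_le_siz A C
  have hs0 : 0 < siz A C := by linarith
  rw [hp C hC hC' d hd]
  have h1 : ∀ e ∈ C, q e {e} ≤ max K 1 * siz A C ^ (ε / (n + 1)) := by
    intro e he
    have h2 := hK {e} (sing_sub (hC he)) (isCoset_singleton e) (by simp) e (by simp)
    have h3 : siz A {e} ≤ siz A C := siz_mono A (Finset.singleton_subset_iff.2 he)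
    have h4 : siz A {e} ^ (ε / (n + 1)) ≤ siz A C ^ (ε / (n + 1)) :=
      Real.rpow_le_rpow (by have := one_le_siz A {e}; linarith) h3 (by positivity)
    have h5 : 0 ≤ siz A {e} ^ (ε / (n + 1)) :=
      Real.rpow_nonneg (by have := one_le_siz A {e}; linarith) _
    calc q e {e} ≤ K * siz A {e} ^ (ε / (n + 1)) := h2
      _ ≤ max K 1 * siz A {e} ^ (ε / (n + 1)) :=
          mul_le_mul_of_nonneg_right (le_max_left _ _) h5
      _ ≤ _ := by
          have : 0 ≤ max K 1 := zero_le_one.trans (le_max_right _ _)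
          gcongr
  have h2 : ∏ e ∈ C, q e {e} ≤ (max K 1 * siz A C ^ (ε / (n + 1))) ^ C.card := by
    rw [← Finset.prod_const]
    exact Finset.prod_le_prod (fun e he => (h0 e (hC he)).le) h1
  have h3 : 1 ≤ max K 1 * siz A C ^ (ε / (n + 1)) := by
    have h4 : 1 ≤ siz A C ^ (ε / (n + 1)) := Real.one_le_rpow hs (by positivity)
    have h5 : 1 ≤ max K 1 := le_max_right _ _
    nlinarith
  refine h2.trans ((pow_le_pow_right₀ h3 hcard).trans ?_)
  rw [mul_pow, ← Real.rpow_natCast (siz A C ^ (ε / (n + 1))) n, ← Real.rpow_mul hs0.le]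
  have h6 : siz A C ^ (ε / (n + 1) * n) ≤ siz A C ^ ε := by
    refine Real.rpow_le_rpow_of_exponent_le hs ?_
    rw [div_mul_eq_mul_div, div_le_iff₀ hn0]
    nlinarith
  have h7 : 0 ≤ max K 1 := zero_le_one.trans (le_max_right _ _)
  gcongr

theorem lower_all {γ : ℂ → ℂ} (hF : TwistFamily real γ L A c) (hq : IsQ real L r c q)
    (hR : RankPart real r L) (h : ∀ ε : ℝ, 0 < ε → Lower real q A 1 ε) (n : ℕ) (ε : ℝ)
    (hε : 0 < ε) : Lower real q A n ε := by
  obtain ⟨h0, hp⟩ := hq.prod hF hR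
  have hn0 : (0 : ℝ) < (n : ℝ) + 1 := by positivity
  obtain ⟨K, hKpos, hK⟩ := h (ε / (n + 1)) (by positivity)
  have hmpos : 0 < min K 1 := lt_min hKpos one_pos
  refine ⟨(min K 1) ^ n, by positivity, fun C hC hC' hcard d hd => ?_⟩
  have hs := one_le_siz A C
  have hs0 : 0 < siz A C := by linarith
  rw [hp C hC hC' d hd]
  have h1 : ∀ e ∈ C, min K 1 * siz A C ^ (-(ε / (n + 1))) ≤ q e {e} := by
    intro e he
    have h2 := hK {e} (sing_sub (hC he)) (isCoset_singleton e) (by simp) e (by simp)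
    have h3 : siz A {e} ≤ siz A C := siz_mono A (Finset.singleton_subset_iff.2 he)
    have h4 : siz A C ^ (-(ε / (n + 1))) ≤ siz A {e} ^ (-(ε / (n + 1))) :=
      Real.rpow_le_rpow_of_nonpos (by have := one_le_siz A {e}; linarith) h3
        (by have : 0 < ε / ((n : ℝ) + 1) := by positivity
            linarith)
    have h5 : 0 ≤ siz A {e} ^ (-(ε / (n + 1))) :=
      Real.rpow_nonneg (by have := one_le_siz A {e}; linarith) _
    calc min K 1 * siz A C ^ (-(ε / (n + 1))) ≤ min K 1 * siz A {e} ^ (-(ε / (n + 1))) := by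
          gcongr
      _ ≤ K * siz A {e} ^ (-(ε / (n + 1))) :=
          mul_le_mul_of_nonneg_right (min_le_left _ _) h5
      _ ≤ q e {e} := h2
  have hnn : 0 ≤ siz A C ^ (-(ε / (n + 1))) := Real.rpow_nonneg hs0.le _
  have h2 : (min K 1 * siz A C ^ (-(ε / (n + 1)))) ^ C.card ≤ ∏ e ∈ C, q e {e} := by
    rw [← Finset.prod_const]
    exact Finset.prod_le_prod (fun e he => by positivity) h1
  have h3 : min K 1 * siz A C ^ (-(ε / (n + 1))) ≤ 1 := by
    have h4 : siz A C ^ (-(ε / (n + 1))) ≤ 1 := Real.rpow_le_one_of_one_le_of_nonpos hs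
      (by have : 0 < ε / ((n : ℝ) + 1) := by positivity
          linarith)
    calc min K 1 * siz A C ^ (-(ε / (n + 1))) ≤ 1 * 1 :=
          mul_le_mul (min_le_right _ _) h4 hnn zero_le_one
      _ = 1 := one_mul 1
  refine le_trans ?_ h2
  refine le_trans ?_ (pow_le_pow_of_le_one (by positivity) h3 hcard)
  rw [mul_pow, ← Real.rpow_natCast (siz A C ^ (-(ε / (n + 1)))) n, ← Real.rpow_mul hs0.le]
  have h6 : siz A C ^ (-ε) ≤ siz A C ^ (-(ε / (n + 1)) * n) := by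
    refine Real.rpow_le_rpow_of_exponent_le hs ?_
    rw [neg_mul, neg_le_neg_iff, div_mul_eq_mul_div, div_le_iff₀ hn0]
    nlinarith
  gcongr

/-- The equivalence for the fields of each degree. -/
theorem degrees_tfae {γ : ℂ → ℂ} (hF : TwistFamily real γ L A c)
    (hgood : {d ∈ Twists real | analyticOrderAt (L d) 1 = r d}.Infinite)
    (hb : ∀ n : ℕ, ∃ M : ℕ, ∀ d ∈ Twists real, d.natAbs.primeFactors.card ≤ n → r d ≤ M)
    (hq : IsQ real L r c q) : List.TFAE [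
      RankPart real r L ∧ ∀ ε : ℝ, 0 < ε → Upper real q A 1 ε ∧ Lower real q A 1 ε,
      ∀ (n : ℕ) (ε : ℝ), 0 < ε → Upper real q A n ε ∧ Lower real q A n ε,
      (∀ ε : ℝ, 0 < ε → Upper real q A 1 ε ∧ Lower real q A 1 ε) ∧ Sub real r q A] := by
  tfae_have 1 → 2 := by
    rintro ⟨hR, h⟩ n ε hε
    exact ⟨upper_all hF hq hR (fun ε hε => (h ε hε).1) n ε hε,
      lower_all hF hq hR (fun ε hε => (h ε hε).2) n ε hε⟩
  tfae_have 2 → 3 := by
    intro h
    refine ⟨fun ε hε => h 1 ε hε, fun d hd => ?_⟩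
    obtain ⟨⟨K, hK⟩, -⟩ := h (max 2 (2 ^ r d)) (1 / 2) (by norm_num)
    exact ⟨1 / 2, by norm_num, K, fun C hC hC' hdC hcard => hK C hC hC' hcard d hdC⟩
  tfae_have 3 → 1 := by
    rintro ⟨h1, h2⟩
    exact ⟨sub_rank hF hgood hb hq (fun ε hε => (h1 ε hε).2) h2, h1⟩
  tfae_finish

end MQV
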