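import Pool.Agent.W_92892c_h14.FouDef

/-!
The characters: multiplicativity and orthogonality.
-/

namespace MQV

open MeasureTheory ENNReal

variable {real : Bool}

instance : IsProbabilityMeasure coin := by
  refine ⟨?_⟩
  unfold coin
  rw [Measure.smul_apply, Measure.add_apply, measure_univ, measure_univ, smul_eq_mul,
    one_add_one_eq_two]
  exact ENNReal.inv_mul_cancel two_ne_zero ENNReal.ofNat_ne_top

instance : IsProbabilityMeasure coins := by
  unfold coins
  infer_instance

private theorem FouA_abs_sgn (b : Bool) : |sgnB b| = 1 := by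
  cases b <;> simp [sgnB]

private theorem FouA_sgn_sq (b : Bool) : sgnB b * sgnB b = 1 := by
  cases b <;> simp [sgnB]

private theorem FouA_pow_val (s : ℝ) (hs : s * s = 1) (x y : ZMod 2) :
    s ^ (x + y).val = s ^ x.val * s ^ y.val := by
  have h3 : ∀ x : ZMod 2, x = 0 ∨ x = 1 := by decide
  have e0 : (0 : ZMod 2).val = 0 := rfl
  have e1 : (1 : ZMod 2).val = 1 := rfl
  have e2 : (1 + 1 : ZMod 2) = 0 := rfl
  rcases h3 x with rfl | rfl <;> rcases h3 y with rfl | rfl <;>
    simp [e0, e1, e2, hs]

private theorem FouA_integral_sgn (n : ℕ) : ∫ σ : ℕ → Bool, sgnB (σ n) ∂coins = 0 := by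
  have h1 : ∫ σ : ℕ → Bool, sgnB (σ n) ∂coins = ∫ b, sgnB b ∂(coins.map (fun σ => σ n)) := by
    rw [integral_map (measurable_pi_apply n).aemeasurable
      (measurable_of_finite sgnB).aestronglyMeasurable]
  have h2 : coins.map (fun σ => σ n) = coin := Measure.infinitePi_map_eval (fun _ => coin) n
  rw [h1, h2]
  unfold coin
  rw [integral_smul_measure, integral_add_measure]
  · rw [integral_dirac, integral_dirac]
    simp [sgnB]
  · exact Integrable.of_finite
  · exact Integrable.of_finite

theorem measurable_chiT (d : ℤ) : Measurable (chiT d) := by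
  have h : ∀ p : ℕ, Measurable (fun σ : ℕ → Bool => sgnB (σ p)) := fun p =>
    (measurable_of_finite sgnB).comp (measurable_pi_apply p)
  have h2 : Measurable (fun σ : ℕ → Bool => ∏ p ∈ d.natAbs.primeFactors, sgnB (σ p)) :=
    Finset.measurable_fun_prod _ fun p _ => h p
  unfold chiT
  by_cases hd : d < 0
  · simp only [hd, if_true]
    exact (h 0).mul h2
  · simp only [hd, if_false]
    exact measurable_const.mul h2

theorem abs_chiT (d : ℤ) (σ : ℕ → Bool) : |chiT d σ| = 1 := by
  unfold chiT
  rw [abs_mul, Finset.abs_prod, Finset.prod_eq_one (fun p _ => FouA_abs_sgn _), mul_one]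
  by_cases hd : d < 0
  · rw [if_pos hd]
    exact FouA_abs_sgn _
  · rw [if_neg hd, abs_one]

/-- `primeFactors_sqf`, `sqf_neg_iff`, `mem_im` -/
theorem chiT_sqf (a : Cls real) (σ : ℕ → Bool) :
    chiT (sqf a) σ = ∏ i ∈ a.support, sgnB (σ i.1) := by
  unfold chiT
  have h1 : ∏ i ∈ a.support, sgnB (σ i.1) = ∏ n ∈ im a, sgnB (σ n) := by
    unfold im
    rw [Finset.prod_image]
    intro x _ y _ h
    exact Subtype.ext h
  rw [h1, primeFactors_sqf]
  by_cases h : 0 ∈ im a
  · rw [if_pos ((sqf_neg_iff a).2 h), Finset.mul_prod_erase _ (fun n => sgnB (σ n)) h]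
  · rw [if_neg (fun h2 => h ((sqf_neg_iff a).1 h2)), Finset.erase_eq_of_notMem h, one_mul]

theorem chiT_zero (σ : ℕ → Bool) : chiT (sqf (0 : Cls real)) σ = 1 := by
  rw [chiT_sqf, Finsupp.support_zero, Finset.prod_empty]

private theorem FouA_chiT_pow (a : Cls real) {U : Finset (Gen real)} (hU : a.support ⊆ U)
    (σ : ℕ → Bool) : chiT (sqf a) σ = ∏ i ∈ U, sgnB (σ i.1) ^ (a i).val := by
  rw [chiT_sqf, ← Finset.prod_subset hU]
  · refine Finset.prod_congr rfl fun i hi => ?_
    have h3 : ∀ x : ZMod 2, x ≠ 0 → x.val = 1 := by decide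
    rw [h3 _ (Finsupp.mem_support_iff.1 hi), pow_one]
  · intro i _ hi
    rw [Finsupp.notMem_support_iff.1 hi]
    simp

/-- write both sides as products over `i ∈ a.support ∪ b.support` of `sgnB (σ i) ^ (a i).val` -/
theorem chiT_add (a b : Cls real) (σ : ℕ → Bool) :
    chiT (sqf (a + b)) σ = chiT (sqf a) σ * chiT (sqf b) σ := by
  classical
  rw [FouA_chiT_pow (a + b) (Finsupp.support_add) σ,
    FouA_chiT_pow a (Finset.subset_union_left (s₂ := b.support)) σ,
    FouA_chiT_pow b (Finset.subset_union_right (s₁ := a.support)) σ, ← Finset.prod_mul_distrib]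
  refine Finset.prod_congr rfl fun i _ => ?_
  rw [Finsupp.add_apply]
  exact FouA_pow_val _ (FouA_sgn_sq _) _ _

/-- `ProbabilityTheory.iIndepFun_infinitePi`, `iIndepFun.integral_fun_prod_comp` (or
`integral_prod_eq_prod_integral`), the mean of one sign is `0` -/
theorem integral_chiT (a : Cls real) (ha : a ≠ 0) : ∫ σ, chiT (sqf a) σ ∂coins = 0 := by
  have hI : ProbabilityTheory.iIndepFun (fun (n : ℕ) (σ : ℕ → Bool) => sgnB (σ n)) coins :=
    ProbabilityTheory.iIndepFun_infinitePi (P := fun _ : ℕ => coin) (X := fun _ b => sgnB b)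
      (fun _ => measurable_of_finite _)
  have hinj : Function.Injective (fun i : a.support => i.1.1) := by
    intro i j h
    exact Subtype.ext (Subtype.ext h)
  have hI2 : ProbabilityTheory.iIndepFun
      (fun (i : a.support) (σ : ℕ → Bool) => sgnB (σ i.1.1)) coins := hI.precomp hinj
  have h1 : ∀ σ : ℕ → Bool, chiT (sqf a) σ = ∏ i : a.support, sgnB (σ i.1.1) := by
    intro σ
    rw [chiT_sqf, ← Finset.prod_coe_sort a.support (fun i => sgnB (σ i.1))]
  simp only [h1]
  rw [hI2.integral_fun_prod_eq_prod_integral (fun i =>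
    ((measurable_of_finite sgnB).comp (measurable_pi_apply _)).aestronglyMeasurable)]
  obtain ⟨i, hi⟩ := Finsupp.support_nonempty_iff.2 ha
  apply Finset.prod_eq_zero (Finset.mem_univ (⟨i, hi⟩ : a.support))
  exact FouA_integral_sgn _

theorem integral_chiT_mul (a b : Cls real) :
    ∫ σ, chiT (sqf a) σ * chiT (sqf b) σ ∂coins = if a = b then 1 else 0 := by
  have h1 : ∀ σ : ℕ → Bool, chiT (sqf a) σ * chiT (sqf b) σ = chiT (sqf (a + b)) σ := fun σ =>
    (chiT_add a b σ).symm
  simp only [h1]
  by_cases h : a = b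
  · subst h
    rw [if_pos rfl, cls_add_self]
    simp only [chiT_zero]
    simp
  · rw [if_neg h]
    apply integral_chiT
    intro h2
    apply h
    have h3 := congrArg (fun x => x + b) h2
    simp only [add_assoc, cls_add_self, add_zero, zero_add] at h3
    exact h3

end MQV
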