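import Pool.Agent.W_92892c_h14.FouA

/-!
A function on the classes with bounded partial Walsh-Fourier sums is the Fourier transform of a bounded
function.
-/

namespace MQV

open MeasureTheory ENNReal

variable {real : Bool}

/-- the classes supported on the generators below `n` -/
private noncomputable def FouB_V (real : Bool) (n : ℕ) : Finset (Cls real) :=
  ((Finset.range n).subtype (fun m => m.Prime ∨ (m = 0 ∧ real = false))).finsupp
    (fun _ => Finset.univ)

private theorem FouB_mem (n : ℕ) (a : Cls real) :
    a ∈ FouB_V real n ↔ ∀ i ∈ a.support, i.1 < n := by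
  unfold FouB_V
  rw [Finset.mem_finsupp_iff]
  constructor
  · rintro ⟨h, _⟩ i hi
    have := h hi
    rw [Finset.mem_subtype, Finset.mem_range] at this
    exact this
  · intro h
    refine ⟨fun i hi => ?_, fun i _ => Finset.mem_univ _⟩
    rw [Finset.mem_subtype, Finset.mem_range]
    exact h i hi

private theorem FouB_memLp (v : Cls real) : MemLp (chiT (sqf v)) 2 coins := by
  refine MemLp.of_bound (measurable_chiT _).aestronglyMeasurable 1 ?_
  refine Filter.Eventually.of_forall (fun σ => ?_)
  rw [Real.norm_eq_abs, abs_chiT]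

private noncomputable def FouB_e (v : Cls real) : Lp ℝ 2 coins := (FouB_memLp v).toLp

private theorem FouB_orth : Orthonormal ℝ (FouB_e : Cls real → Lp ℝ 2 coins) := by
  classical
  have key : ∀ u v : Cls real, inner ℝ (FouB_e u) (FouB_e v) = if u = v then (1 : ℝ) else 0 := by
    intro u v
    rw [L2.inner_def, ← integral_chiT_mul u v]
    refine integral_congr_ae ?_
    filter_upwards [(FouB_memLp u).coeFn_toLp, (FouB_memLp v).coeFn_toLp] with σ h1 h2
    change inner ℝ ((FouB_memLp u).toLp _ σ) ((FouB_memLp v).toLp _ σ) = _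
    rw [h1, h2]
    simp [mul_comm]
  rw [orthonormal_iff_ite]
  exact key

/-- `Cls real` is countable: an increasing sequence of finite subgroups `V_n` with union everything
(e.g. the classes whose support is contained in the generators `i.1 < n`). The partial sums
`f_n = ∑ v ∈ V_n, x v * chi v` are bounded by `M` and Cauchy in `L²(coins)`
(`integral_chiT_mul` and `hl2`), let `f` be the limit in `Lp ℝ 2 coins`; a subsequence converges almost
everywhere, so `|f| ≤ M` almost everywhere; take a measurable representative, cut it off at `± M`.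
The coefficients: `∫ f_n chi_v = x v` as soon as `v ∈ V_n`; pass to the limit. -/
theorem exists_phi (x : Cls real → ℝ) (M : ℝ)
    (h : ∀ V : Finset (Cls real), 0 ∈ V → (∀ u ∈ V, ∀ v ∈ V, u + v ∈ V) →
      ∀ σ : ℕ → Bool, |∑ v ∈ V, x v * chiT (sqf v) σ| ≤ M)
    (hl2 : ∃ B : ℝ, ∀ T : Finset (Cls real), ∑ v ∈ T, (x v) ^ 2 ≤ B) :
    ∃ Φ : (ℕ → Bool) → ℝ, Measurable Φ ∧ (∀ σ, |Φ σ| ≤ M) ∧
      ∀ v : Cls real, x v = ∫ σ, Φ σ * chiT (sqf v) σ ∂coins := by
  classical
  obtain ⟨B, hB⟩ := hl2
  have hM : 0 ≤ M := by
    have := h {0} (Finset.mem_singleton_self _) (by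
      intro u hu v hv
      rw [Finset.mem_singleton] at hu hv ⊢
      rw [hu, hv, add_zero]) (fun _ => true)
    exact (abs_nonneg _).trans this
  have hsum : Summable (fun v : Cls real => (x v) ^ 2) :=
    summable_of_sum_le (fun v => sq_nonneg _) hB
  have horth := (FouB_orth (real := real))
  have hsummable : Summable (fun v : Cls real => x v • (FouB_e v)) := by
    have h1 := (horth.orthogonalFamily.summable_iff_norm_sq_summable (fun v => x v)).2 (by
      refine hsum.congr (fun v => ?_)
      rw [Real.norm_eq_abs, sq_abs])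
    refine h1.congr (fun v => ?_)
    rfl
  obtain ⟨f, hf⟩ := hsummable
  have hVmono : Monotone (FouB_V real) := by
    intro m n hmn a ha
    rw [FouB_mem] at ha ⊢
    exact fun i hi => (ha i hi).trans_le hmn
  have hVex : ∀ a : Cls real, ∃ n, a ∈ FouB_V real n := by
    intro a
    refine ⟨a.support.sup (fun i => i.1) + 1, ?_⟩
    rw [FouB_mem]
    intro i hi
    exact Nat.lt_succ_of_le (Finset.le_sup (f := fun i : Gen real => i.1) hi)
  have hVt := Filter.tendsto_atTop_finset_of_monotone hVmono hVex
  have hlim : Filter.Tendsto (fun n => ∑ v ∈ FouB_V real n, x v • FouB_e v) Filter.atTop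
      (nhds f) := hf.comp hVt
  -- pointwise values of the partial sums
  have hval : ∀ n, (∑ v ∈ FouB_V real n, x v • FouB_e v : Lp ℝ 2 coins) =ᵐ[coins]
      fun σ => ∑ v ∈ FouB_V real n, x v * chiT (sqf v) σ := by
    intro n
    have h1 : ∀ T : Finset (Cls real), (∑ v ∈ T, x v • FouB_e v : Lp ℝ 2 coins) =ᵐ[coins]
      fun σ => ∑ v ∈ T, x v * chiT (sqf v) σ := by
      intro T
      induction T using Finset.induction_on with
      | empty =>
        simp only [Finset.sum_empty]
        exact Lp.coeFn_zero _ _ _
      | insert a s has ih =>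
        rw [Finset.sum_insert has]
        filter_upwards [Lp.coeFn_add (x a • FouB_e a) (∑ v ∈ s, x v • FouB_e v), ih,
          Lp.coeFn_smul (x a) (FouB_e a), (FouB_memLp a).coeFn_toLp] with σ h1 h2 h3 h4
        rw [h1, Pi.add_apply, h2, h3, Pi.smul_apply, Finset.sum_insert has]
        change x a • ((FouB_memLp a).toLp _ σ) + _ = _
        rw [h4, smul_eq_mul]
    exact h1 _
  have hbd : ∀ n σ, |∑ v ∈ FouB_V real n, x v * chiT (sqf v) σ| ≤ M := by
    intro n σ
    refine h _ ?_ ?_ σ
    · rw [FouB_mem]
      intro i hi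
      simp at hi
    · intro u hu v hv
      rw [FouB_mem] at hu hv ⊢
      intro i hi
      rcases Finset.mem_union.1 (Finsupp.support_add hi) with h1 | h1
      · exact hu i h1
      · exact hv i h1
  obtain ⟨ns, _, hns⟩ := (tendstoInMeasure_of_tendsto_Lp hlim).exists_seq_tendsto_ae
  have hall : ∀ᵐ σ ∂coins, ∀ n, (∑ v ∈ FouB_V real n, x v • FouB_e v : Lp ℝ 2 coins) σ =
      ∑ v ∈ FouB_V real n, x v * chiT (sqf v) σ := ae_all_iff.2 hval
  have hfM : ∀ᵐ σ ∂coins, |f σ| ≤ M := by
    filter_upwards [hns, hall] with σ h1 h2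
    have h3 := (continuous_abs.tendsto _).comp h1
    refine le_of_tendsto h3 (Filter.Eventually.of_forall (fun k => ?_))
    simp only [Function.comp_apply]
    rw [h2]
    exact hbd _ _
  refine ⟨fun σ => max (-M) (min M (f σ)), ?_, ?_, ?_⟩
  · exact measurable_const.max (measurable_const.min (Lp.stronglyMeasurable f).measurable)
  · intro σ
    rw [abs_le]
    exact ⟨le_max_left _ _, max_le (by linarith) (min_le_left _ _)⟩
  · intro v
    have h1 : inner ℝ (FouB_e v) f = x v := by
      have h2 : Filter.Tendsto (fun n => inner ℝ (FouB_e v)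
          (∑ w ∈ FouB_V real n, x w • FouB_e w)) Filter.atTop (nhds (inner ℝ (FouB_e v) f)) :=
        (continuous_const.inner continuous_id).tendsto f |>.comp hlim
      have h3 : ∀ᶠ n in Filter.atTop, inner ℝ (FouB_e v)
          (∑ w ∈ FouB_V real n, x w • FouB_e w) = x v := by
        obtain ⟨n0, hn0⟩ := hVex v
        filter_upwards [Filter.eventually_ge_atTop n0] with n hn
        exact horth.inner_right_sum x (hVmono hn hn0)
      exact tendsto_nhds_unique (h2.congr' h3) tendsto_const_nhds |>.symm ▸ rfl
    rw [← h1, L2.inner_def]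
    refine integral_congr_ae ?_
    filter_upwards [hfM, (FouB_memLp v).coeFn_toLp] with σ h4 h5
    change inner ℝ ((FouB_memLp v).toLp _ σ) (f σ) = _
    rw [h5]
    rw [abs_le] at h4
    rw [min_eq_right h4.2, max_eq_right h4.1]
    simp [mul_comm]

end MQV
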