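import Pool.Agent.W_92892c_h14.FouA
import Pool.Agent.W_92892c_h77.SplitG

/-!
Every coset of square classes is `a + V`, and the sums over cosets of the Fourier transform of a bounded
function are bounded.
-/

namespace MQV

open MeasureTheory ENNReal

variable {real : Bool}

/-- `V = {v | sqf (a + v) ∈ C}`; if `sqf a * sqf b * sqf c * sqf d` is a square then `d = a + b + c`, by
`isSquare_four` and `eq_of_isSquare_mul'` (Pool/Agent/W_92892c_h77/SplitG.lean) and
`sqf_injective`. -/
theorem exists_cst (C : Finset ℤ) (hC : ↑C ⊆ Twists real) (hC' : IsCoset C) (a : Cls real)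
    (ha : sqf a ∈ C) : ∃ V : Finset (Cls real), 0 ∈ V ∧ (∀ u ∈ V, ∀ v ∈ V, u + v ∈ V) ∧
      C = cst a V := by
  classical
  have hk : ∀ d : ℤ, ∃ b : Cls real, d ∈ C → sqf b = d := by
    intro d
    by_cases hd : d ∈ C
    · obtain ⟨b, hb⟩ := exists_sqf (real := real) (hC (Finset.mem_coe.2 hd))
      exact ⟨b, fun _ => hb⟩
    · exact ⟨0, fun h => absurd h hd⟩
  choose κ hκ using hk
  have haa : ∀ b : Cls real, a + (a + b) = b := by
    intro b
    rw [← add_assoc, cls_add_self, zero_add]
  refine ⟨C.image fun d => a + κ d, ?_, ?_, ?_⟩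
  · refine Finset.mem_image.2 ⟨sqf a, ha, ?_⟩
    rw [sqf_injective (hκ _ ha), cls_add_self]
  · intro u hu v hv
    obtain ⟨x, hx, rfl⟩ := Finset.mem_image.1 hu
    obtain ⟨y, hy, rfl⟩ := Finset.mem_image.1 hv
    set c : Cls real := a + κ x + κ y with hc
    have h1 : IsSquare (sqf a * sqf (κ x) * sqf (κ y) * sqf c) :=
      isSquare_four (cls_add_self _)
    rw [hκ x hx, hκ y hy] at h1
    obtain ⟨w, hw, h2⟩ := hC'.closed (sqf a) ha x hx y hy
    have hne : ∀ d ∈ C, d ≠ 0 := fun d hd => (hC (Finset.mem_coe.2 hd)).1.ne_zero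
    have h3 : IsSquare (w * sqf c) := by
      refine Pool.Agent.W92892cH77.isSquare_cancel (y := sqf a * x * y)
        (mul_ne_zero (mul_ne_zero (hne _ ha) (hne _ hx)) (hne _ hy)) ?_
      have h4 := h2.mul h1
      have h5 : sqf a * x * y * w * (sqf a * x * y * sqf c) =
          w * sqf c * (sqf a * x * y * (sqf a * x * y)) := by ring
      rwa [h5] at h4
    have h6 : w = sqf c := Pool.Agent.W92892cH77.eq_of_isSquare_mul'
      (hC (Finset.mem_coe.2 hw)).1 (sqf_mem c).1 h3
    refine Finset.mem_image.2 ⟨w, hw, ?_⟩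
    have h7 : κ w = c := sqf_injective ((hκ w hw).trans h6)
    show a + κ w = a + κ x + (a + κ y)
    rw [h7, hc]
    abel
  · ext d
    unfold cst
    rw [Finset.image_image, Finset.mem_image]
    constructor
    · intro hd
      refine ⟨d, hd, ?_⟩
      simp only [Function.comp_apply, haa]
      exact hκ d hd
    · rintro ⟨e, he, h1⟩
      simp only [Function.comp_apply, haa] at h1
      rw [hκ e he] at h1
      exact h1 ▸ he

/-- `∑ v ∈ V, chi v ≥ 0` (translate by an element `u` with `chi u = -1`: the sum is `0`; otherwise it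
is `card V`), its integral is `1`, and `∑ e ∈ C, chi e = chi (sqf a) * ∑ v ∈ V, chi v`. -/
theorem abs_sum_le (Φ : (ℕ → Bool) → ℝ) (hm : Measurable Φ) (M : ℝ) (hM : ∀ σ, |Φ σ| ≤ M)
    (x : ℤ → ℝ) (hx : ∀ d ∈ Twists real, x d = ∫ σ, Φ σ * chiT d σ ∂coins)
    (C : Finset ℤ) (hC : ↑C ⊆ Twists real) (hC' : IsCoset C) : |∑ e ∈ C, x e| ≤ M := by
  obtain ⟨d0, hd0⟩ := hC'.nonempty
  obtain ⟨a, rfl⟩ := exists_sqf (real := real) (hC (Finset.mem_coe.2 hd0))
  obtain ⟨V, h0, hadd, rfl⟩ := exists_cst C hC hC' a hd0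
  rw [sum_cst]
  have hχint : ∀ d, Integrable (chiT d) coins := fun d =>
    Integrable.of_bound (measurable_chiT d).aestronglyMeasurable 1
      (Filter.Eventually.of_forall fun σ => (abs_chiT d σ).le)
  have hΦint : ∀ d, Integrable (fun σ => Φ σ * chiT d σ) coins := fun d =>
    Integrable.of_bound (hm.mul (measurable_chiT d)).aestronglyMeasurable M
      (Filter.Eventually.of_forall fun σ => by
        rw [Real.norm_eq_abs, abs_mul, abs_chiT, mul_one]
        exact hM σ)
  have hSint : ∫ σ, ∑ v ∈ V, chiT (sqf v) σ ∂coins = 1 := by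
    rw [integral_finsetSum _ fun v _ => hχint _, Finset.sum_eq_single_of_mem 0 h0]
    · simp only [chiT_zero, integral_const, probReal_univ, smul_eq_mul, mul_one]
    · intro v _ hv
      exact integral_chiT v hv
  have hS : ∀ σ, 0 ≤ ∑ v ∈ V, chiT (sqf v) σ := by
    intro σ
    have h1 : ∀ u ∈ V, chiT (sqf u) σ * ∑ v ∈ V, chiT (sqf v) σ = ∑ v ∈ V, chiT (sqf v) σ := by
      intro u hu
      rw [Finset.mul_sum]
      refine Finset.sum_nbij' (fun v => u + v) (fun v => u + v) (fun v hv => hadd u hu v hv)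
        (fun v hv => hadd u hu v hv) ?_ ?_ ?_
      · intro v _
        rw [← add_assoc, cls_add_self, zero_add]
      · intro v _
        rw [← add_assoc, cls_add_self, zero_add]
      · intro v _
        rw [chiT_add]
    by_cases h2 : ∀ u ∈ V, chiT (sqf u) σ = 1
    · exact Finset.sum_nonneg fun u hu => by rw [h2 u hu]; exact zero_le_one
    · push Not at h2
      obtain ⟨u, hu, h3⟩ := h2
      have h4 : chiT (sqf u) σ = -1 := by
        rcases (abs_eq zero_le_one).1 (abs_chiT (sqf u) σ) with h | h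
        · exact absurd h h3
        · exact h
      have h5 := h1 u hu
      rw [h4] at h5
      linarith
  have e : ∑ v ∈ V, x (sqf (a + v)) =
      ∫ σ, Φ σ * (chiT (sqf a) σ * ∑ v ∈ V, chiT (sqf v) σ) ∂coins := by
    rw [Finset.sum_congr rfl fun v _ => hx _ (sqf_mem (a + v)),
      ← integral_finsetSum _ fun v _ => hΦint _]
    refine integral_congr_ae (Filter.Eventually.of_forall fun σ => ?_)
    simp only [chiT_add]
    rw [Finset.mul_sum, Finset.mul_sum]
  rw [e]
  refine (abs_integral_le_integral_abs).trans ?_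
  have hint : Integrable (fun σ => M * ∑ v ∈ V, chiT (sqf v) σ) coins :=
    (integrable_finsetSum _ fun v _ => hχint _).const_mul M
  refine (integral_mono_of_nonneg (Filter.Eventually.of_forall fun σ => abs_nonneg _) hint
    (Filter.Eventually.of_forall fun σ => ?_)).trans ?_
  · simp only
    rw [abs_mul, abs_mul, abs_chiT, one_mul, abs_of_nonneg (hS σ)]
    exact mul_le_mul_of_nonneg_right (hM σ) (hS σ)
  · rw [integral_const_mul, hSint, mul_one]

end MQV
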