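import Pool.Agent.W_92892c_v15.Grp

/-!
Independent fair signs (the Galois group of `ℚ(√-1, √2, √3, √5, …)` with its Haar measure) and the
characters attached to squarefree integers.
-/

namespace MQV

open MeasureTheory ENNReal

/-- `true ↦ 1`, `false ↦ -1`. -/
def sgnB (b : Bool) : ℝ := if b then 1 else -1

/-- The character of the squarefree integer `d`: the product of the signs `σ_p`, `p ∣ d`, times `σ_0`
if `d < 0`. -/
def chiT (d : ℤ) (σ : ℕ → Bool) : ℝ :=
  (if d < 0 then sgnB (σ 0) else 1) * ∏ p ∈ d.natAbs.primeFactors, sgnB (σ p)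

/-- A fair coin. -/
noncomputable def coin : Measure Bool :=
  (2⁻¹ : ℝ≥0∞) • (Measure.dirac true + Measure.dirac false)

/-- Independent fair coins. -/
noncomputable def coins : Measure (ℕ → Bool) := Measure.infinitePi fun _ => coin

end MQV
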