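import Mathlib

/-!
Descent by Parseval: bounds for the sums over the cosets with `2 ^ j` elements.
-/

namespace MQV

open Finset

private lemma Pars_pm {D : Type*} [AddCommGroup D] (h2 : ∀ d : D, d + d = 0) {S : AddSubgroup D}
    (ψ : AddChar S ℂ) (v : S) : ψ v = 1 ∨ ψ v = -1 := by
  have h0 : v + v = 0 := Subtype.ext (h2 v)
  have h1 : ψ v * ψ v = 1 := by
    rw [← AddChar.map_add_eq_mul, h0, AddChar.map_zero_eq_one]
  exact mul_self_eq_one_iff.1 h1

private lemma Pars_key {D : Type*} [AddCommGroup D] (h2 : ∀ d : D, d + d = 0) (x : D → ℝ) (ε : ℝ)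
    (j : ℕ) (h : ∀ (a : D) (V : Finset D), 0 ∈ V → (∀ u ∈ V, ∀ v ∈ V, u + v ∈ V) →
      V.card = 2 ^ j → |∑ v ∈ V, x (a + v)| ≤ ε)
    (a : D) {S : AddSubgroup D} [Fintype S] (hS : Fintype.card S = 2 ^ (j + 1))
    (ψ : AddChar S ℂ) (u : S) (hu : ψ u = -1) :
    ∃ A B : ℝ, |A| ≤ ε ∧ |B| ≤ ε ∧ ∑ v : S, (x (a + v) : ℂ) * ψ v = ((A - B : ℝ) : ℂ) ∧
      ∑ v : S, x (a + v) = A + B := by
  classical
  set P : Finset S := univ.filter (fun v : S => ψ v = 1) with hP
  set N : Finset S := univ.filter (fun v : S => ¬ ψ v = 1) with hN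
  have hne : (1 : ℂ) ≠ -1 := by norm_num
  have hNm : ∀ v, v ∈ N ↔ ψ v = -1 := by
    intro v
    rw [hN, mem_filter]
    constructor
    · rintro ⟨-, h1⟩
      exact (Pars_pm h2 ψ v).resolve_left h1
    · intro h1
      exact ⟨mem_univ _, by rw [h1]; exact hne.symm⟩
  have hPm : ∀ v, v ∈ P ↔ ψ v = 1 := by
    intro v
    rw [hP, mem_filter]
    simp
  have huu : ∀ v : S, u + (u + v) = v := by
    intro v
    apply Subtype.ext
    show (u : D) + ((u : D) + (v : D)) = v
    rw [← add_assoc, h2, zero_add]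
  have hmul : ∀ v : S, ψ (u + v) = - ψ v := by
    intro v
    rw [AddChar.map_add_eq_mul, hu]
    ring
  have hbij : ∀ g : S → ℝ, ∑ v ∈ N, g v = ∑ v ∈ P, g (u + v) := by
    intro g
    symm
    refine sum_bij' (fun v _ => u + v) (fun v _ => u + v) ?_ ?_ ?_ ?_ ?_
    · intro v hv
      rw [hNm, hmul, (hPm v).1 hv]
    · intro v hv
      rw [hPm, hmul, (hNm v).1 hv, neg_neg]
    · intro v _
      exact huu v
    · intro v _
      exact huu v
    · intro v _
      rfl
  have hcardN : N.card = P.card := by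
    have h1 := hbij (fun _ => 1)
    simp only [sum_const, nsmul_eq_mul, mul_one] at h1
    exact_mod_cast h1
  have hcard : P.card = 2 ^ j := by
    have h1 : P.card + N.card = Fintype.card S := by
      rw [hP, hN, card_filter_add_card_filter_not, card_univ]
    rw [hcardN, hS, pow_succ] at h1
    omega
  have hH : ∀ b : D, |∑ v ∈ P, x (b + v)| ≤ ε := by
    intro b
    have h1 := h b (P.map (Function.Embedding.subtype _)) ?_ ?_ ?_
    · rw [sum_map] at h1
      exact h1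
    · rw [mem_map]
      exact ⟨0, (hPm 0).2 (AddChar.map_zero_eq_one ψ), rfl⟩
    · intro v hv w hw
      rw [mem_map] at hv hw ⊢
      obtain ⟨v', hv', rfl⟩ := hv
      obtain ⟨w', hw', rfl⟩ := hw
      refine ⟨v' + w', ?_, rfl⟩
      rw [hPm, AddChar.map_add_eq_mul, (hPm v').1 hv', (hPm w').1 hw', one_mul]
    · rw [card_map, hcard]
  refine ⟨∑ v ∈ P, x (a + v), ∑ v ∈ N, x (a + v), hH a, ?_, ?_, ?_⟩
  · rw [hbij (fun v => x (a + v))]
    have e : ∀ v ∈ P, x (a + ((u + v : S) : D)) = x ((a + u) + v) := by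
      intro v _
      congr 1
      show a + ((u : D) + (v : D)) = a + u + v
      rw [add_assoc]
    rw [sum_congr rfl e]
    exact hH _
  · rw [← sum_filter_add_sum_filter_not univ (fun v : S => ψ v = 1)]
    rw [← hP, ← hN]
    have e1 : ∑ v ∈ P, (x (a + v) : ℂ) * ψ v = ((∑ v ∈ P, x (a + v) : ℝ) : ℂ) := by
      push_cast
      exact sum_congr rfl fun v hv => by rw [(hPm v).1 hv, mul_one]
    have e2 : ∑ v ∈ N, (x (a + v) : ℂ) * ψ v = -((∑ v ∈ N, x (a + v) : ℝ) : ℂ) := by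
      push_cast
      rw [← sum_neg_distrib]
      exact sum_congr rfl fun v hv => by rw [(hNm v).1 hv, mul_neg, mul_one]
    rw [e1, e2]
    push_cast
    ring
  · rw [← sum_filter_add_sum_filter_not univ (fun v : S => ψ v = 1)]

/-- Write `f v = x (a + v)` on the finite group `V` (of exponent two, order `2 m`, `m = 2 ^ j`). For a
character `χ` of `V`, `∑ v, f v * χ v` is the difference of the sums of `f` over two cosets of a
subgroup with `m` elements (for `χ = 1`: their sum), so it is at most `2 ε` in absolute value;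
Parseval (`AddChar.sum_apply_eq_ite` or similar, for `AddChar V ℂ`, or an induction). -/
theorem parseval_desc {D : Type*} [AddCommGroup D] (h2 : ∀ d : D, d + d = 0) (x : D → ℝ) (ε : ℝ)
    (j : ℕ) (h : ∀ (a : D) (V : Finset D), 0 ∈ V → (∀ u ∈ V, ∀ v ∈ V, u + v ∈ V) →
      V.card = 2 ^ j → |∑ v ∈ V, x (a + v)| ≤ ε)
    (a : D) (V : Finset D) (h0 : 0 ∈ V) (hadd : ∀ u ∈ V, ∀ v ∈ V, u + v ∈ V)
    (hV : V.card = 2 ^ (j + 1)) : ∑ v ∈ V, (x (a + v)) ^ 2 ≤ 4 * ε ^ 2 := by
  classical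
  let S : AddSubgroup D :=
    { carrier := {d | d ∈ V}
      zero_mem' := h0
      add_mem' := fun {u v} hu hv => hadd u hu v hv
      neg_mem' := fun {v} hv => by
        have e : -v = v := neg_eq_of_add_eq_zero_left (h2 v)
        show -v ∈ V
        rw [e]
        exact hv }
  have hmem : ∀ d, d ∈ V ↔ d ∈ S := fun d => Iff.rfl
  letI : Fintype S := Fintype.subtype V hmem
  have hcard : Fintype.card S = 2 ^ (j + 1) := by
    rw [← hV]
    exact Fintype.card_of_subtype V hmem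
  have hsum : ∀ g : D → ℝ, ∑ v ∈ V, g v = ∑ v : S, g v := fun g => sum_subtype V hmem g
  rw [hsum]
  -- a nontrivial character
  obtain ⟨u0, hu0⟩ : ∃ u0 : S, u0 ≠ 0 := by
    by_contra hcon
    push Not at hcon
    have h1 : Fintype.card S ≤ 1 := Fintype.card_le_one_iff.2 fun s t => by rw [hcon s, hcon t]
    rw [hcard, pow_succ] at h1
    have h3 : 0 < 2 ^ j := by positivity
    omega
  obtain ⟨ψ0, hψ0⟩ := AddChar.exists_apply_ne_zero.2 hu0
  have hψ0' : ψ0 u0 = -1 := (Pars_pm h2 ψ0 u0).resolve_left hψ0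
  -- the bound of the Fourier coefficients
  have hbd : ∀ ψ : AddChar S ℂ, ∃ r : ℝ, r ^ 2 ≤ 4 * ε ^ 2 ∧
      ∑ v : S, (x (a + v) : ℂ) * ψ v = (r : ℂ) := by
    intro ψ
    have hsq : ∀ A B : ℝ, |A| ≤ ε → |B| ≤ ε → (A - B) ^ 2 ≤ 4 * ε ^ 2 ∧
        (A + B) ^ 2 ≤ 4 * ε ^ 2 := by
      intro A B hA hB
      have h1 := abs_le.1 hA
      have h3 := abs_le.1 hB
      constructor <;> nlinarith
    by_cases hψ : ∃ u : S, ψ u = -1
    · obtain ⟨u, hu⟩ := hψ
      obtain ⟨A, B, hA, hB, h3, -⟩ := Pars_key h2 x ε j h a hcard ψ u hu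
      exact ⟨A - B, (hsq A B hA hB).1, h3⟩
    · push Not at hψ
      obtain ⟨A, B, hA, hB, -, h4⟩ := Pars_key h2 x ε j h a hcard ψ0 u0 hψ0'
      refine ⟨A + B, (hsq A B hA hB).2, ?_⟩
      rw [← h4]
      push_cast
      exact sum_congr rfl fun v _ => by
        rw [(Pars_pm h2 ψ v).resolve_right (hψ v), mul_one]
  choose r hr1 hr2 using hbd
  have hS0 : (0 : ℝ) < Fintype.card S := by
    rw [hcard]
    positivity
  have key : ∑ ψ : AddChar S ℂ, r ψ ^ 2 = (Fintype.card S : ℝ) * ∑ v : S, x (a + v) ^ 2 := by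
    have hC : ((∑ ψ : AddChar S ℂ, r ψ ^ 2 : ℝ) : ℂ) =
        (((Fintype.card S : ℝ) * ∑ v : S, x (a + v) ^ 2 : ℝ) : ℂ) := by
      push_cast
      have e1 : ∀ ψ : AddChar S ℂ, (r ψ : ℂ) ^ 2 =
          ∑ v : S, ∑ w : S, (x (a + v) : ℂ) * (x (a + w) : ℂ) * ψ (v + w) := by
        intro ψ
        rw [← hr2 ψ, sq, sum_mul_sum]
        refine sum_congr rfl fun v _ => sum_congr rfl fun w _ => ?_
        rw [AddChar.map_add_eq_mul]
        ring
      rw [sum_congr rfl fun ψ _ => e1 ψ, sum_comm, mul_sum]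
      refine sum_congr rfl fun v _ => ?_
      rw [sum_comm]
      have e2 : ∀ w : S, ∑ ψ : AddChar S ℂ, (x (a + v) : ℂ) * (x (a + w) : ℂ) * ψ (v + w) =
          if w = v then (Fintype.card S : ℂ) * ((x (a + v) : ℂ) ^ 2) else 0 := by
        intro w
        rw [← mul_sum, AddChar.sum_apply_eq_ite]
        have h3 : v + w = 0 ↔ w = v := by
          constructor
          · intro h4
            have h5 : v + v = 0 := Subtype.ext (h2 v)
            exact (add_left_cancel (h5.trans h4.symm)).symm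
          · rintro rfl
            exact Subtype.ext (h2 w)
        by_cases h4 : w = v
        · rw [if_pos (h3.2 h4), if_pos h4, h4]
          ring
        · rw [if_neg fun h5 => h4 (h3.1 h5), if_neg h4, mul_zero]
      rw [sum_congr rfl fun w _ => e2 w, sum_ite_eq' univ v]
      simp
    exact_mod_cast hC
  have hle : ∑ ψ : AddChar S ℂ, r ψ ^ 2 ≤ (Fintype.card S : ℝ) * (4 * ε ^ 2) := by
    calc ∑ ψ : AddChar S ℂ, r ψ ^ 2 ≤ ∑ _ψ : AddChar S ℂ, 4 * ε ^ 2 :=
          sum_le_sum fun ψ _ => hr1 ψ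
      _ = (Fintype.card S : ℝ) * (4 * ε ^ 2) := by
          rw [sum_const, card_univ, AddChar.card_eq, nsmul_eq_mul]
  rw [key] at hle
  exact le_of_mul_le_mul_left hle hS0

end MQV
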