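import Pool.Agent.W_92892c_h14.Deg
import Pool.Agent.W_92892c_h14.Pars
import Pool.Agent.W_92892c_h14.FouB
import Pool.Agent.W_92892c_h14.FouC

/-!
Descent from the fields of one degree, the asymptotic formula, the bounded formula.
-/

namespace MQV

open Finset Filter PowerSeries Topology MeasureTheory

variable {real : Bool} {L : ℤ → ℂ → ℂ} {r : ℤ → ℕ} {c : ℤ → ℂ} {A : ℤ → ℝ}
  {q : ℤ → Finset ℤ → ℝ}

theorem IsQ.log {γ : ℂ → ℂ} (hq : IsQ real L r c q) (hF : TwistFamily real γ L A c)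
    (hR : RankPart real r L) (C : Finset ℤ) (hC : ↑C ⊆ Twists real) (hC' : IsCoset C) (d : ℤ)
    (hd : d ∈ C) : 0 < q d C ∧ Real.log (q d C) = ∑ e ∈ C, Real.log (q e {e}) := by
  obtain ⟨h0, hp⟩ := hq.prod hF hR
  rw [hp C hC hC' d hd]
  exact ⟨Finset.prod_pos fun e he => h0 e (hC he),
    Real.log_prod fun e he => (h0 e (hC he)).ne'⟩

/-- Descent: an error `ε` over the fields of one degree. -/
theorem descent {γ : ℂ → ℂ} (hF : TwistFamily real γ L A c) (hq : IsQ real L r c q)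
    (hR : RankPart real r L) (j : ℕ) (ε : ℝ)
    (h : ∀ C : Finset ℤ, ↑C ⊆ Twists real → IsCoset C → C.card = 2 ^ j → ∀ d ∈ C,
      |Real.log (q d C)| ≤ ε) (C : Finset ℤ) (hC : ↑C ⊆ Twists real) (hC' : IsCoset C)
    (hcard : C.card = 2 ^ (j + 1)) : ∑ e ∈ C, (Real.log (q e {e})) ^ 2 ≤ 4 * ε ^ 2 := by
  classical
  obtain ⟨d, hd⟩ := hC'.nonempty
  obtain ⟨a, ha⟩ := exists_sqf (hC hd)
  obtain ⟨V, h0, hadd, rfl⟩ := exists_cst C hC hC' a (by rw [ha]; exact hd)
  rw [card_cst] at hcard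
  rw [sum_cst]
  refine parseval_desc (D := Cls real) cls_add_self
    (fun a => Real.log (q (sqf a) {sqf a})) ε j ?_ a V h0 hadd hcard
  intro b W hW0 hWadd hWcard
  have h1 := h (cst b W) (cst_subset b W) (isCoset_cst hW0 hWadd)
    (by rw [card_cst]; exact hWcard) (sqf b) (mem_cst hW0)
  rw [(hq.log hF hR (cst b W) (cst_subset b W) (isCoset_cst hW0 hWadd) (sqf b)
    (mem_cst hW0)).2, sum_cst] at h1
  exact h1

lemma cl_mono' {D : Type*} [AddCommGroup D] [DecidableEq D] {S T : Finset D} (h : S ⊆ T) :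
    W92892c.cl S ⊆ W92892c.cl T := by
  intro x hx
  obtain ⟨U, hU, rfl⟩ := W92892c.mem_cl.1 hx
  exact W92892c.mem_cl.2 ⟨U, hU.trans h, rfl⟩

/-- Finite subgroups containing given elements. -/
theorem exists_sub (T : Finset (Cls real)) : ∃ (n : ℕ) (V : Finset (Cls real)),
    0 ∈ V ∧ (∀ u ∈ V, ∀ v ∈ V, u + v ∈ V) ∧ T ⊆ V ∧ V.card = 2 ^ (n + 1) := by
  classical
  have key : ∃ (n : ℕ) (S : Finset (Cls real)), T ⊆ W92892c.cl S ∧
      (W92892c.cl S).card = 2 ^ (n + 1) := by
    induction T using Finset.induction_on with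
    | empty =>
      obtain ⟨w, -, hw⟩ := (om_one_infinite (real := real)).exists_notMem_finset
        (W92892c.cl (∅ : Finset (Cls real)))
      have h1 := (W92892c.cl_insert cls_add_self ∅ w hw).2
      rw [W92892c.cl_empty, Finset.card_singleton] at h1
      exact ⟨0, insert w ∅, Finset.empty_subset _, by rw [h1]; norm_num⟩
    | insert t T ht ih =>
      obtain ⟨n, S, hS, hSc⟩ := ih
      by_cases h : t ∈ W92892c.cl S
      · exact ⟨n, S, Finset.insert_subset h hS, hSc⟩
      · refine ⟨n + 1, insert t S, ?_, ?_⟩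
        · refine Finset.insert_subset (W92892c.subset_cl _ (Finset.mem_insert_self _ _)) ?_
          exact hS.trans (cl_mono' (Finset.subset_insert _ _))
        · rw [(W92892c.cl_insert cls_add_self S t h).2, hSc]
          ring
  obtain ⟨n, S, hS, hSc⟩ := key
  have h1 := W92892c.isSub_cl (cls_add_self (real := real)) S
  exact ⟨n, W92892c.cl S, h1.1, h1.2, hS, hSc⟩

/-- Cosets of every degree through every twist. -/
theorem exists_coset (j : ℕ) (d : ℤ) (hd : d ∈ Twists real) : ∃ C : Finset ℤ,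
    ↑C ⊆ Twists real ∧ IsCoset C ∧ d ∈ C ∧ C.card = 2 ^ j := by
  classical
  have key : ∃ S : Finset (Cls real), (W92892c.cl S).card = 2 ^ j := by
    induction j with
    | zero => exact ⟨∅, by rw [W92892c.cl_empty]; simp⟩
    | succ j ih =>
      obtain ⟨S, hS⟩ := ih
      obtain ⟨w, -, hw⟩ := (om_one_infinite (real := real)).exists_notMem_finset (W92892c.cl S)
      exact ⟨insert w S, by rw [(W92892c.cl_insert cls_add_self S w hw).2, hS]; ring⟩
  obtain ⟨S, hS⟩ := key
  obtain ⟨a, ha⟩ := exists_sqf hd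
  have h1 := W92892c.isSub_cl (cls_add_self (real := real)) S
  exact ⟨cst a (W92892c.cl S), cst_subset _ _, isCoset_cst h1.1 h1.2,
    by rw [← ha]; exact mem_cst h1.1, by rw [card_cst, hS]⟩

lemma abs_log_le {t ε : ℝ} (ht : |t - 1| ≤ ε) (hε : ε ≤ 1 / 2) : |Real.log t| ≤ 2 * ε := by
  have h1 := abs_le.1 ht
  have ht0 : 0 < t := by linarith
  have hε0 : 0 ≤ ε := (abs_nonneg _).trans ht
  rw [abs_le]
  constructor
  · have h2 := Real.one_sub_inv_le_log_of_pos ht0
    have h3 : t⁻¹ ≤ 1 + 2 * ε := by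
      rw [inv_le_iff_one_le_mul₀ ht0]
      nlinarith
    linarith
  · have h2 := Real.log_le_sub_one_of_pos ht0
    linarith

/-- The asymptotic formula implies the exact one. -/
theorem asym_tfae {γ : ℂ → ℂ} (hF : TwistFamily real γ L A c)
    (hgood : {d ∈ Twists real | analyticOrderAt (L d) 1 = r d}.Infinite)
    (hb : ∀ n : ℕ, ∃ M : ℕ, ∀ d ∈ Twists real, d.natAbs.primeFactors.card ≤ n → r d ≤ M)
    (hq : IsQ real L r c q) : (RankPart real r L ∧ ∀ d ∈ Twists real, q d {d} = 1) ↔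
      (∀ ε : ℝ, 0 < ε → Lower real q A 1 ε) ∧ Sub real r q A ∧
      ∀ ε : ℝ, 0 < ε → ∃ j : ℕ, ∀ C : Finset ℤ, ↑C ⊆ Twists real → IsCoset C →
        C.card = 2 ^ j → ∀ d ∈ C, |q d C - 1| ≤ ε := by
  constructor
  · rintro ⟨hR, h1⟩
    have hp : ∀ C : Finset ℤ, ↑C ⊆ Twists real → IsCoset C → ∀ d ∈ C, q d C = 1 := by
      intro C hC hC' d hd
      rw [(hq.prod hF hR).2 C hC hC' d hd]
      exact Finset.prod_eq_one fun e he => h1 e (hC he)
    refine ⟨fun ε hε => ⟨1, one_pos, fun C hC hC' _ d hd => ?_⟩, fun d hd => ?_, fun ε hε => ?_⟩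
    · rw [hp C hC hC' d hd, one_mul]
      exact Real.rpow_le_one_of_one_le_of_nonpos (one_le_siz A C) (by linarith)
    · refine ⟨0, zero_lt_one, 1, fun C hC hC' hdC _ => ?_⟩
      rw [hp C hC hC' d hdC, Real.rpow_zero, one_mul]
    · refine ⟨0, fun C hC hC' _ d hd => ?_⟩
      rw [hp C hC hC' d hd, sub_self, abs_zero]
      exact hε.le
  · rintro ⟨h1, h2, h3⟩
    have hR := sub_rank hF hgood hb hq h1 h2
    refine ⟨hR, fun d hd => ?_⟩
    have hpos := (hq.prod hF hR).1 d hd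
    have key : ∀ δ : ℝ, 0 < δ → (Real.log (q d {d})) ^ 2 ≤ δ := by
      intro δ hδ
      set ε : ℝ := min (1 / 2) (Real.sqrt δ / 4) with hε
      have hsq : 0 < Real.sqrt δ := Real.sqrt_pos.2 hδ
      have hε0 : 0 < ε := lt_min (by norm_num) (by positivity)
      obtain ⟨j, hj⟩ := h3 ε hε0
      obtain ⟨C, hC, hC', hdC, hcard⟩ := exists_coset (j + 1) d hd
      have h4 := descent hF hq hR j (2 * ε) (fun C hC hC' hcard d hd =>
        abs_log_le (hj C hC hC' hcard d hd) (min_le_left _ _)) C hC hC' hcard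
      have h5 : (Real.log (q d {d})) ^ 2 ≤ ∑ e ∈ C, (Real.log (q e {e})) ^ 2 :=
        Finset.single_le_sum (f := fun e => (Real.log (q e {e})) ^ 2)
          (fun _ _ => sq_nonneg _) hdC
      have h6 : ε ≤ Real.sqrt δ / 4 := min_le_right _ _
      have h7 : 4 * (2 * ε) ^ 2 ≤ δ := by
        have h8 : ε ^ 2 ≤ (Real.sqrt δ / 4) ^ 2 := by gcongr
        rw [div_pow, Real.sq_sqrt hδ.le] at h8
        linarith
      linarith
    have h0 : (Real.log (q d {d})) ^ 2 = 0 :=
      le_antisymm (le_of_forall_pos_le_add fun δ hδ => by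
        rw [zero_add]; exact key δ hδ) (sq_nonneg _)
    have h1 : Real.log (q d {d}) = 0 := by
      rcases pow_eq_zero_iff (two_ne_zero) |>.1 h0 with h
      exact h
    exact Real.eq_one_of_pos_of_log_eq_zero hpos h1

/-- A uniform bound. -/
def Bdd (real : Bool) (q : ℤ → Finset ℤ → ℝ) (B : ℝ) : Prop :=
  ∀ C : Finset ℤ, ↑C ⊆ Twists real → IsCoset C → ∀ d ∈ C, B⁻¹ ≤ q d C ∧ q d C ≤ B

theorem Bdd.rank {γ : ℂ → ℂ} (hF : TwistFamily real γ L A c)
    (hgood : {d ∈ Twists real | analyticOrderAt (L d) 1 = r d}.Infinite)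
    (hb : ∀ n : ℕ, ∃ M : ℕ, ∀ d ∈ Twists real, d.natAbs.primeFactors.card ≤ n → r d ≤ M)
    (hq : IsQ real L r c q) {B : ℝ} (hB : 0 < B) (h : Bdd real q B) : RankPart real r L := by
  refine sub_rank hF hgood hb hq (fun ε hε => ⟨B⁻¹, inv_pos.2 hB, fun C hC hC' _ d hd => ?_⟩)
    fun d hd => ⟨0, zero_lt_one, B, fun C hC hC' hdC _ => ?_⟩
  · refine le_trans ?_ (h C hC hC' d hd).1
    have h1 : siz A C ^ (-ε) ≤ 1 :=
      Real.rpow_le_one_of_one_le_of_nonpos (one_le_siz A C) (by linarith)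
    have := mul_le_mul_of_nonneg_left h1 (inv_pos.2 hB).le
    linarith
  · rw [Real.rpow_zero, mul_one]
    exact (h C hC hC' d hdC).2

theorem Bdd.abs_log {B : ℝ} (hB : 0 < B) (h : Bdd real q B) (C : Finset ℤ)
    (hC : ↑C ⊆ Twists real) (hC' : IsCoset C) (d : ℤ) (hd : d ∈ C) :
    |Real.log (q d C)| ≤ Real.log B := by
  obtain ⟨h1, h2⟩ := h C hC hC' d hd
  have h3 : 0 < B⁻¹ := inv_pos.2 hB
  have h4 : 0 < q d C := h3.trans_le h1
  rw [abs_le]
  constructor
  · rw [← Real.log_inv]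
    exact Real.log_le_log h3 h1
  · exact Real.log_le_log h4 h2

/-- The square sum. -/
theorem Bdd.sum_sq {γ : ℂ → ℂ} (hF : TwistFamily real γ L A c)
    (hgood : {d ∈ Twists real | analyticOrderAt (L d) 1 = r d}.Infinite)
    (hb : ∀ n : ℕ, ∃ M : ℕ, ∀ d ∈ Twists real, d.natAbs.primeFactors.card ≤ n → r d ≤ M)
    (hq : IsQ real L r c q) {B : ℝ} (hB : 0 < B) (h : Bdd real q B) (T : Finset ℤ)
    (hT : ↑T ⊆ Twists real) : ∑ d ∈ T, (Real.log (q d {d})) ^ 2 ≤ 4 * (Real.log B) ^ 2 := by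
  classical
  have hR := Bdd.rank hF hgood hb hq hB h
  have hex : ∀ d : ℤ, ∃ a : Cls real, d ∈ Twists real → sqf a = d := by
    intro d
    by_cases hd : d ∈ Twists real
    · obtain ⟨a, ha⟩ := exists_sqf hd
      exact ⟨a, fun _ => ha⟩
    · exact ⟨0, fun h => absurd h hd⟩
  choose s hs using hex
  obtain ⟨n, V, h0, hadd, hTV, hcard⟩ := exists_sub (T.image s)
  have h1 := descent hF hq hR n (Real.log B) (fun C hC hC' _ d hd =>
    Bdd.abs_log hB h C hC hC' d hd) (cst 0 V) (cst_subset _ _) (isCoset_cst h0 hadd)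
    (by rw [card_cst]; exact hcard)
  refine le_trans (Finset.sum_le_sum_of_subset_of_nonneg ?_ fun _ _ _ => sq_nonneg _) h1
  intro d hd
  unfold cst
  rw [Finset.mem_image]
  exact ⟨s d, hTV (Finset.mem_image_of_mem _ hd), by rw [zero_add]; exact hs d (hT hd)⟩

/-- The bounded formula. -/
theorem bdd_iff {γ : ℂ → ℂ} (hF : TwistFamily real γ L A c)
    (hgood : {d ∈ Twists real | analyticOrderAt (L d) 1 = r d}.Infinite)
    (hb : ∀ n : ℕ, ∃ M : ℕ, ∀ d ∈ Twists real, d.natAbs.primeFactors.card ≤ n → r d ≤ M)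
    (hq : IsQ real L r c q) : (∃ B : ℝ, 0 < B ∧ Bdd real q B) ↔
      RankPart real r L ∧ ∃ Φ : (ℕ → Bool) → ℝ, Measurable Φ ∧ (∃ M : ℝ, ∀ σ, |Φ σ| ≤ M) ∧
        ∀ d ∈ Twists real, Real.log (q d {d}) = ∫ σ, Φ σ * chiT d σ ∂coins := by
  classical
  constructor
  · rintro ⟨B, hB, h⟩
    have hR := Bdd.rank hF hgood hb hq hB h
    refine ⟨hR, ?_⟩
    let x : Cls real → ℝ := fun a => Real.log (q (sqf a) {sqf a})
    have hcos : ∀ (a : Cls real) (V : Finset (Cls real)), 0 ∈ V →
        (∀ u ∈ V, ∀ v ∈ V, u + v ∈ V) → |∑ v ∈ V, x (a + v)| ≤ Real.log B := by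
      intro a V h0 hadd
      have h1 := Bdd.abs_log hB h (cst a V) (cst_subset _ _) (isCoset_cst h0 hadd) (sqf a)
        (mem_cst h0)
      rw [(hq.log hF hR (cst a V) (cst_subset _ _) (isCoset_cst h0 hadd) (sqf a)
        (mem_cst h0)).2, sum_cst] at h1
      exact h1
    have hpm : ∀ (a : Cls real) (σ : ℕ → Bool), chiT (sqf a) σ = 1 ∨ chiT (sqf a) σ = -1 := by
      intro a σ
      exact eq_or_eq_neg_of_abs_eq (abs_chiT (sqf a) σ)
    have hM0 : 0 ≤ Real.log B := by
      have h1 := hcos 0 {0} (by simp) (by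
        intro u hu v hv
        rw [Finset.mem_singleton] at hu hv ⊢
        rw [hu, hv, add_zero])
      exact (abs_nonneg _).trans h1
    have hpart : ∀ V : Finset (Cls real), 0 ∈ V → (∀ u ∈ V, ∀ v ∈ V, u + v ∈ V) →
        ∀ σ : ℕ → Bool, |∑ v ∈ V, x v * chiT (sqf v) σ| ≤ 2 * Real.log B := by
      intro V h0 hadd σ
      set P := V.filter (fun v => chiT (sqf v) σ = 1) with hP
      have hP0 : 0 ∈ P := Finset.mem_filter.2 ⟨h0, chiT_zero σ⟩
      have hPadd : ∀ u ∈ P, ∀ v ∈ P, u + v ∈ P := by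
        intro u hu v hv
        rw [hP, Finset.mem_filter] at hu hv ⊢
        exact ⟨hadd u hu.1 v hv.1, by rw [chiT_add, hu.2, hv.2, one_mul]⟩
      have hsplit : ∑ v ∈ V, x v * chiT (sqf v) σ = ∑ v ∈ P, x v -
          ∑ v ∈ V.filter (fun v => ¬ chiT (sqf v) σ = 1), x v := by
        rw [← Finset.sum_filter_add_sum_filter_not V (fun v => chiT (sqf v) σ = 1)]
        have e1 : ∑ v ∈ V.filter (fun v => chiT (sqf v) σ = 1), x v * chiT (sqf v) σ =
            ∑ v ∈ P, x v := by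
          refine Finset.sum_congr rfl fun v hv => ?_
          rw [(Finset.mem_filter.1 hv).2, mul_one]
        have e2 : ∑ v ∈ V.filter (fun v => ¬ chiT (sqf v) σ = 1), x v * chiT (sqf v) σ =
            -∑ v ∈ V.filter (fun v => ¬ chiT (sqf v) σ = 1), x v := by
          rw [← Finset.sum_neg_distrib]
          refine Finset.sum_congr rfl fun v hv => ?_
          rw [((hpm v σ).resolve_left (Finset.mem_filter.1 hv).2), mul_neg, mul_one]
        rw [e1, e2]
        ring
      have hfirst : |∑ v ∈ P, x v| ≤ Real.log B := by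
        have h1 := hcos 0 P hP0 hPadd
        simpa using h1
      have hsecond : |∑ v ∈ V.filter (fun v => ¬ chiT (sqf v) σ = 1), x v| ≤ Real.log B := by
        by_cases hne : (V.filter (fun v => ¬ chiT (sqf v) σ = 1)).Nonempty
        · obtain ⟨u, hu⟩ := hne
          obtain ⟨huV, hu1⟩ := Finset.mem_filter.1 hu
          have hu2 : chiT (sqf u) σ = -1 := (hpm u σ).resolve_left hu1
          have h1 := hcos u P hP0 hPadd
          have h2 : ∑ v ∈ P, x (u + v) =
              ∑ v ∈ V.filter (fun v => ¬ chiT (sqf v) σ = 1), x v := by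
            refine Finset.sum_bij' (fun v _ => u + v) (fun v _ => u + v) ?_ ?_ ?_ ?_ ?_
            · intro v hv
              rw [hP, Finset.mem_filter] at hv
              rw [Finset.mem_filter]
              refine ⟨hadd u huV v hv.1, ?_⟩
              rw [chiT_add, hu2, hv.2]
              norm_num
            · intro v hv
              rw [Finset.mem_filter] at hv
              rw [hP, Finset.mem_filter]
              refine ⟨hadd u huV v hv.1, ?_⟩
              rw [chiT_add, hu2, (hpm v σ).resolve_left hv.2]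
              norm_num
            · intro v _
              rw [← add_assoc, cls_add_self, zero_add]
            · intro v _
              rw [← add_assoc, cls_add_self, zero_add]
            · intro v _
              rfl
          rw [← h2]
          exact h1
        · rw [Finset.not_nonempty_iff_eq_empty.1 hne]
          simpa using hM0
      rw [hsplit]
      refine (abs_sub _ _).trans ?_
      linarith
    have hl2 : ∃ B : ℝ, ∀ T : Finset (Cls real), ∑ v ∈ T, (x v) ^ 2 ≤ B := by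
      refine ⟨4 * (Real.log B) ^ 2, fun T => ?_⟩
      have h1 := Bdd.sum_sq hF hgood hb hq hB h (T.image sqf) (by
        intro d hd
        rw [Finset.coe_image] at hd
        obtain ⟨a, _, rfl⟩ := hd
        exact sqf_mem a)
      rw [Finset.sum_image (fun a _ b _ hab => sqf_injective hab)] at h1
      exact h1
    obtain ⟨Φ, hm, hM, hΦ⟩ := exists_phi x (2 * Real.log B) hpart hl2
    refine ⟨Φ, hm, ⟨_, hM⟩, fun d hd => ?_⟩
    obtain ⟨a, rfl⟩ := exists_sqf hd
    exact hΦ a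
  · rintro ⟨hR, Φ, hm, ⟨M, hM⟩, hΦ⟩
    refine ⟨Real.exp M, Real.exp_pos M, fun C hC hC' d hd => ?_⟩
    obtain ⟨h1, h2⟩ := hq.log hF hR C hC hC' d hd
    have h3 := abs_sum_le Φ hm M hM (fun d => Real.log (q d {d})) hΦ C hC hC'
    beta_reduce at h3
    rw [← h2] at h3
    obtain ⟨h4, h5⟩ := abs_le.1 h3
    constructor
    · rw [← Real.exp_neg, ← Real.exp_log h1]
      exact Real.exp_le_exp.2 h4
    · rw [← Real.exp_log h1]
      exact Real.exp_le_exp.2 h5

end MQV
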