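import Pool.Agent.W_92892c_h14.CoreG2
import Pool.Agent.W_92892c_v15.AnaY

/-!
The formula up to a factor `(log A)^α`, `α < 1`: from the quotients to the abstract core.
-/

namespace MQV

open Finset Filter PowerSeries Topology

/-- The size of the logarithm of the conductor. -/
noncomputable def siz (A : ℤ → ℝ) (C : Finset ℤ) : ℝ := 1 + ∑ e ∈ C, |Real.log (A e)|

lemma one_le_siz (A : ℤ → ℝ) (C : Finset ℤ) : 1 ≤ siz A C := by
  unfold siz
  have : 0 ≤ ∑ e ∈ C, |Real.log (A e)| := Finset.sum_nonneg fun _ _ => abs_nonneg _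
  linarith

lemma siz_mono (A : ℤ → ℝ) {S C : Finset ℤ} (h : S ⊆ C) : siz A S ≤ siz A C := by
  unfold siz
  have : ∑ e ∈ S, |Real.log (A e)| ≤ ∑ e ∈ C, |Real.log (A e)| :=
    Finset.sum_le_sum_of_subset_of_nonneg h fun _ _ _ => abs_nonneg _
  linarith

lemma lin_of_rpow {β : ℝ} (hβ : β < 1) (K ε : ℝ) (hε : 0 < ε) :
    ∃ B : ℝ, ∀ s : ℝ, 1 ≤ s → K * s ^ β ≤ ε * s + B := by
  have h1 : Tendsto (fun x : ℝ => |K| * x ^ (-(1 - β))) atTop (𝓝 (|K| * 0)) :=
    (tendsto_rpow_neg_atTop (by linarith)).const_mul _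
  rw [mul_zero] at h1
  have h2 := h1.eventually_lt_const hε
  rw [eventually_atTop] at h2
  obtain ⟨S0, hS0⟩ := h2
  set S : ℝ := max S0 1 with hS
  refine ⟨|K| * S ^ |β|, fun s hs => ?_⟩
  have hs0 : 0 < s := by linarith
  have hK : K * s ^ β ≤ |K| * s ^ β :=
    mul_le_mul_of_nonneg_right (le_abs_self K) (Real.rpow_nonneg hs0.le _)
  refine hK.trans ?_
  by_cases h3 : S ≤ s
  · have h4 := hS0 s ((le_max_left _ _).trans h3)
    have h5 : s ^ β = s ^ (-(1 - β)) * s := by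
      conv_rhs => rw [← Real.rpow_one s]
      rw [Real.rpow_one, ← Real.rpow_add_one hs0.ne']
      congr 1
      ring
    have h6 : 0 ≤ |K| * S ^ |β| := by
      have : 0 ≤ S := (zero_le_one).trans (le_max_right _ _)
      positivity
    rw [h5, ← mul_assoc]
    have h7 := mul_le_mul_of_nonneg_right h4.le hs0.le
    linarith
  · have h3' : s ≤ S := (not_le.1 h3).le
    have h4 : s ^ β ≤ S ^ |β| :=
      (Real.rpow_le_rpow_of_exponent_le hs (le_abs_self β)).trans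
        (Real.rpow_le_rpow hs0.le h3' (abs_nonneg β))
    have h5 := mul_le_mul_of_nonneg_left h4 (abs_nonneg K)
    have h6 : 0 ≤ ε * s := by positivity
    linarith

variable {real : Bool} {L : ℤ → ℂ → ℂ} {r : ℤ → ℕ} {c : ℤ → ℂ} {A : ℤ → ℝ}

/-- The constants for which the formula over `ℚ` is exact. -/
noncomputable def renc (L : ℤ → ℂ → ℂ) (r : ℤ → ℕ) (c : ℤ → ℂ) (d : ℤ) : ℂ :=
  c d * bsdQuot L r c {d}

lemma bsdQuot_renc (C : Finset ℤ) :
    bsdQuot L r (renc L r c) C = bsdQuot L r c C / ∏ e ∈ C, bsdQuot L r c {e} := by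
  unfold renc
  conv_lhs => unfold bsdQuot
  rw [Finset.prod_mul_distrib]
  unfold bsdQuot
  rw [div_div _ (∏ d ∈ C, c d)]

lemma bsdQuot_renc_singleton {d : ℤ} (h : bsdQuot L r c {d} ≠ 0) :
    bsdQuot L r (renc L r c) {d} = 1 := by
  rw [bsdQuot_renc, Finset.prod_singleton, div_self h]

theorem TwistFamily.ren {γ : ℂ → ℂ} (hF : TwistFamily real γ L A c)
    (hne : ∀ d ∈ Twists real, bsdQuot L r c {d} ≠ 0) :
    TwistFamily real γ L A (renc L r c) :=
  ⟨hF.gamma_an, hF.gamma_ne, hF.an, hF.pos, hF.fe, hF.fin,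
    fun d hd => mul_ne_zero (hF.ne d hd) (hne d hd)⟩

/-- Bound for the renormalised quotients. -/
theorem renc_bound {n : ℕ} {α : ℝ} (hα : α < 1)
    (hlow : ∀ ε : ℝ, 0 < ε → ∃ K : ℝ, 0 < K ∧ ∀ d ∈ Twists real,
      K * siz A {d} ^ (-ε) ≤ ‖bsdQuot L r c {d}‖)
    (K : ℝ) (ε : ℝ) (hε : 0 < ε) : ∃ B : ℝ, ∀ C : Finset ℤ, ↑C ⊆ Twists real → C.card ≤ n →
      ‖bsdQuot L r c C‖ ≤ K * siz A C ^ α →
      ‖bsdQuot L r (renc L r c) C‖ ≤ ε * ∑ e ∈ C, |Real.log (A e)| + B := by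
  set δ : ℝ := (1 - α) / (2 * ((n : ℝ) + 1)) with hδ
  have hn0 : (0 : ℝ) ≤ n := Nat.cast_nonneg n
  have hδ0 : 0 < δ := by
    rw [hδ]
    apply div_pos (by linarith) (by positivity)
  obtain ⟨K1, hK1, hlow1⟩ := hlow δ hδ0
  set K2 : ℝ := min K1 1 with hK2
  have hK2pos : 0 < K2 := lt_min hK1 one_pos
  have hK2le : K2 ≤ 1 := min_le_right _ _
  have hβ : α + n * δ < 1 := by
    have h1 : (n : ℝ) * δ ≤ (1 - α) / 2 := by
      rw [hδ, mul_div_assoc', div_le_div_iff₀ (by positivity) (by norm_num)]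
      nlinarith
    linarith
  obtain ⟨B, hB⟩ := lin_of_rpow hβ (|K| * K2⁻¹ ^ n) ε hε
  refine ⟨ε + B, fun C hC hCn hCK => ?_⟩
  have hs := one_le_siz A C
  have hs0 : 0 < siz A C := by linarith
  rw [bsdQuot_renc, norm_div, norm_prod]
  have hden : K2 ^ n * siz A C ^ (-(n * δ)) ≤ ∏ e ∈ C, ‖bsdQuot L r c {e}‖ := by
    have h1 : ∀ e ∈ C, K2 * siz A C ^ (-δ) ≤ ‖bsdQuot L r c {e}‖ := by
      intro e he
      have h2 := hlow1 e (hC he)
      have h3 : siz A {e} ≤ siz A C := siz_mono A (Finset.singleton_subset_iff.2 he)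
      have h4 : siz A C ^ (-δ) ≤ siz A {e} ^ (-δ) :=
        Real.rpow_le_rpow_of_nonpos (by have := one_le_siz A {e}; linarith) h3 (by linarith)
      have h5 : 0 ≤ siz A {e} ^ (-δ) :=
        Real.rpow_nonneg (by have := one_le_siz A {e}; linarith) _
      calc K2 * siz A C ^ (-δ) ≤ K2 * siz A {e} ^ (-δ) := by gcongr
        _ ≤ K1 * siz A {e} ^ (-δ) := by
            have := min_le_left K1 1
            gcongr
        _ ≤ _ := h2
    have h6 : (K2 * siz A C ^ (-δ)) ^ C.card ≤ ∏ e ∈ C, ‖bsdQuot L r c {e}‖ := by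
      rw [← Finset.prod_const]
      exact Finset.prod_le_prod (fun _ _ => by positivity) h1
    refine le_trans ?_ h6
    have h7 : K2 * siz A C ^ (-δ) ≤ 1 := by
      have h8 : siz A C ^ (-δ) ≤ 1 := Real.rpow_le_one_of_one_le_of_nonpos hs (by linarith)
      have h9 : 0 ≤ siz A C ^ (-δ) := Real.rpow_nonneg hs0.le _
      calc K2 * siz A C ^ (-δ) ≤ 1 * 1 := mul_le_mul hK2le h8 h9 zero_le_one
        _ = 1 := one_mul 1
    have h10 : (K2 * siz A C ^ (-δ)) ^ n ≤ (K2 * siz A C ^ (-δ)) ^ C.card :=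
      pow_le_pow_of_le_one (by positivity) h7 hCn
    refine le_trans (le_of_eq ?_) h10
    rw [mul_pow, ← Real.rpow_natCast (siz A C ^ (-δ)) n, ← Real.rpow_mul hs0.le]
    congr 2
    ring
  have hden0 : 0 < K2 ^ n * siz A C ^ (-(n * δ)) := by
    have := Real.rpow_pos_of_pos hs0 (-(n * δ))
    positivity
  have hnum : ‖bsdQuot L r c C‖ ≤ |K| * siz A C ^ α :=
    hCK.trans (mul_le_mul_of_nonneg_right (le_abs_self K) (Real.rpow_nonneg hs0.le _))
  calc ‖bsdQuot L r c C‖ / ∏ e ∈ C, ‖bsdQuot L r c {e}‖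
      ≤ (|K| * siz A C ^ α) / (K2 ^ n * siz A C ^ (-(n * δ))) := by
        have h1 : 0 ≤ |K| * siz A C ^ α :=
          mul_nonneg (abs_nonneg K) (Real.rpow_nonneg hs0.le _)
        gcongr
    _ = |K| * K2⁻¹ ^ n * siz A C ^ (α + n * δ) := by
        rw [Real.rpow_add hs0, Real.rpow_neg hs0.le, inv_pow]
        field_simp
    _ ≤ ε * siz A C + B := hB _ hs
    _ = ε * ∑ e ∈ C, |Real.log (A e)| + (ε + B) := by
        unfold siz
        ring

theorem lam_fin {γ : ℂ → ℂ} (hF : TwistFamily real γ L A c) :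
    ∀ B : ℝ, {d ∈ Twists real | Real.log (A d) ≤ B}.Finite := by
  intro B
  refine (hF.fin (Real.exp B)).subset ?_
  rintro d ⟨hd, hB⟩
  exact ⟨hd, (Real.log_le_iff_le_exp (hF.pos d hd)).1 hB⟩

/-- The abstract data, from quotients `o(log A)` for the pairs. -/
theorem Nrm.dataG {lam : ℤ → ℝ} {R : PowerSeries ℂ} {k : ℤ → ℕ} {F : ℤ → PowerSeries ℂ}
    (h : Nrm real L r c lam R k F) (hlam : ∀ B : ℝ, {d ∈ Twists real | lam d ≤ B}.Finite)
    (hinf : {d ∈ Twists real | k d = 0}.Infinite)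
    (hP : ∀ a ∈ Twists real, ∀ ε : ℝ, 0 < ε → ∃ B : ℝ, ∀ b ∈ Twists real, b ≠ a →
      ‖bsdQuot L r c {a, b}‖ ≤ ε * |lam b| + B) :
    W92892c.DataG {a : Cls real | k (sqf a) = 0} R (fun a => lam (sqf a)) (fun a => F (sqf a))
      (fun a => k (sqf a)) := by
  refine ⟨fun a j hj => h.odd _ (sqf_mem a) j hj, fun a => h.zero _ (sqf_mem a),
    fun a => h.top _ (sqf_mem a), ?_, ?_, ?_, ?_⟩
  · rw [tendsto_atTop]
    intro b
    rw [eventually_cofinite]
    have h1 := (finite_iff (real := real) (fun d => lam d ≤ b)).1 (hlam b)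
    refine h1.subset ?_
    intro a ha
    exact (not_le.1 ha).le
  · exact (infinite_iff (real := real) (fun d => k d = 0)).1 hinf
  · intro a ha
    exact ha
  · intro a ε hε
    obtain ⟨B, hB⟩ := hP (sqf a) (sqf_mem a) ε hε
    refine ⟨B, fun b hb hab => ?_⟩
    have h1 : sqf b ≠ sqf a := fun h2 => hab (sqf_injective h2)
    have h2 := hB (sqf b) (sqf_mem b) h1
    rw [h.quot _ (pair_subset (sqf_mem a) (sqf_mem b)), sum_pair h1.symm, prod_pair h1.symm] at h2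
    exact h2

/-- The formula up to factors `(log A)^α`, `α < 1`, gives the order of vanishing. -/
theorem approx_core {γ : ℂ → ℂ} (hF : TwistFamily real γ L A c)
    (hgood : {d ∈ Twists real | analyticOrderAt (L d) 1 = r d}.Infinite)
    (hlow : ∀ ε : ℝ, 0 < ε → ∃ K : ℝ, 0 < K ∧ ∀ d ∈ Twists real,
      K * siz A {d} ^ (-ε) ≤ ‖bsdQuot L r c {d}‖)
    (hpair : ∀ a ∈ Twists real, ∃ α : ℝ, α < 1 ∧ ∃ K : ℝ, ∀ b ∈ Twists real,
      ‖bsdQuot L r c {a, b}‖ ≤ K * siz A {a, b} ^ α) :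
    (∀ M : ℕ, {d ∈ Twists real | r d ≤ M ∧ analyticOrderAt (L d) 1 ≠ r d}.Finite) ∧
    ((∀ n : ℕ, ∃ M : ℕ, ∀ d ∈ Twists real, d.natAbs.primeFactors.card ≤ n → r d ≤ M) →
      ∀ d ∈ Twists real, (∃ α : ℝ, α < 1 ∧ ∃ K : ℝ, ∀ C : Finset ℤ, ↑C ⊆ Twists real →
        IsCoset C → d ∈ C → C.card ≤ 2 ^ r d → ‖bsdQuot L r c C‖ ≤ K * siz A C ^ α) →
      analyticOrderAt (L d) 1 = r d) := by
  classical
  have hne : ∀ d ∈ Twists real, bsdQuot L r c {d} ≠ 0 := by
    intro d hd h0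
    obtain ⟨K, hK, h1⟩ := hlow 1 one_pos
    have h2 := h1 d hd
    rw [h0, norm_zero] at h2
    have h3 : 0 < siz A {d} ^ (-(1 : ℝ)) :=
      Real.rpow_pos_of_pos (by have := one_le_siz A {d}; linarith) _
    have := mul_pos hK h3
    linarith
  obtain ⟨R, k, F, h, hk⟩ := (hF.ren hne).nrm2 fun d hd => bsdQuot_renc_singleton (hne d hd)
  have hkz : ∀ d ∈ Twists real, (analyticOrderAt (L d) 1 = r d ↔ k d = 0) := by
    intro d hd
    have h1 := hk d hd
    constructor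
    · intro h2
      rw [h2] at h1
      have h3 : ((r d + k d : ℕ) : ℕ∞) = ((r d : ℕ) : ℕ∞) := by exact_mod_cast h1
      have h4 : r d + k d = r d := by exact_mod_cast h3
      omega
    · intro h2
      rw [h2] at h1
      simpa using h1
  have hinf : {d ∈ Twists real | k d = 0}.Infinite := by
    refine hgood.mono ?_
    rintro d ⟨hd, hd'⟩
    exact ⟨hd, (hkz d hd).1 hd'⟩
  have hP : ∀ a ∈ Twists real, ∀ ε : ℝ, 0 < ε → ∃ B : ℝ, ∀ b ∈ Twists real, b ≠ a →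
      ‖bsdQuot L r (renc L r c) {a, b}‖ ≤ ε * |Real.log (A b)| + B := by
    intro a ha ε hε
    obtain ⟨α, hα, K, hK⟩ := hpair a ha
    obtain ⟨B, hB⟩ := renc_bound (n := 2) hα hlow K ε hε
    refine ⟨ε * |Real.log (A a)| + B, fun b hb hab => ?_⟩
    have h1 := hB {a, b} (pair_subset ha hb) Finset.card_le_two (hK b hb)
    rw [Finset.sum_pair hab.symm] at h1
    linarith
  have hD := h.dataG (lam_fin hF) hinf hP
  refine ⟨fun M => ?_, ?_⟩
  · have h1 := W92892c.coreG_finite h.R0 hD M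
    have h2 : {d ∈ Twists real | 1 ≤ k d ∧ k d ≤ M}.Finite :=
      (finite_iff (real := real) (fun d => 1 ≤ k d ∧ k d ≤ M)).2 h1
    refine h2.subset ?_
    rintro d ⟨hd, h3, h4⟩
    rw [Ne, hkz d hd] at h4
    exact ⟨hd, Nat.one_le_iff_ne_zero.2 h4, (h.rk d hd).trans h3⟩
  · intro hb d hd hC
    obtain ⟨α, hα, K, hK⟩ := hC
    obtain ⟨a, ha⟩ := exists_sqf hd
    rw [hkz d hd, ← ha]
    refine W92892c.coreG_zero (D := Cls real) cls_add_self om om_add om_one_infinite h.R0 hD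
      (fun n => by
        obtain ⟨M, hM⟩ := bdd_cls hb n
        exact ⟨M, fun a ha => (h.rk _ (sqf_mem a)).trans (hM a ha)⟩) a ?_
    intro ε hε
    obtain ⟨B, hB⟩ := renc_bound (n := 2 ^ r d) hα hlow K ε hε
    refine ⟨B, fun V h0 hadd hV => ?_⟩
    have hcard : (cst a V).card ≤ 2 ^ r d := by
      rw [card_cst]
      refine hV.trans (Nat.pow_le_pow_right (by norm_num) ?_)
      rw [← ha]
      exact h.rk _ (sqf_mem a)
    have h1 := hB (cst a V) (cst_subset a V) hcard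
      (hK _ (cst_subset a V) (isCoset_cst h0 hadd) (by rw [← ha]; exact mem_cst h0) hcard)
    rw [h.quot _ (cst_subset a V), sum_cst, prod_cst, sum_cst] at h1
    exact h1

end MQV
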